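import Pool.Agent.MP_3ee8cb_gt.D3CT.Spec

/-! First and second order facts on a front at a large time. -/

namespace Pool.Agent.MP_3ee8cb_gt.D3CT

open Set Filter Topology Pool.Agent.MP_3ee8cb_gt.D3
open scoped RealInnerProductSpace

noncomputable section

namespace RFr

variable {m : MF} {σ : V → V × V}

theorem cZ (hm : m.OK) (t : ℝ) : ContDiff ℝ 1 (m.Z t) :=
  hm.cZ.comp (contDiff_const.prodMk contDiff_id)

theorem dZ (hm : m.OK) (t : ℝ) (z : V × V) : HasFDerivAt (m.Z t) (fderiv ℝ (m.Z t) z) z :=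
  ((cZ hm t).differentiable one_ne_zero z).hasFDerivAt

theorem hor_ap (z ξ : V × V) : m.hor z ξ = m.S z.1 ξ.1 := rfl

theorem ver_ap (z ξ : V × V) : m.ver z ξ = ξ.2 + m.om z.1 ξ.1 z.2 := rfl

theorem dZ_vf (hm : m.OK) (t : ℝ) (z : V × V) :
    fderiv ℝ (m.Z t) z (m.vf z) = m.vf (m.Z t z) := by
  have h1 := hm.ode z 0
  rw [hm.zero] at h1
  have h2 := (dZ hm t z).comp_hasDerivAt_of_eq 0 h1 (hm.zero z).symm
  have h3 := (hm.ode z (t + 0)).comp_const_add t 0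
  rw [add_zero] at h3
  refine h2.unique (h3.congr_of_eventuallyEq (Eventually.of_forall fun s => ?_))
  exact (hm.add t s z).symm

theorem dZ_rad (hm : m.OK) (hj : m.Jac) (t : ℝ) (z : V × V) : fderiv ℝ (m.Z t) z (0, z.2) =
    (t • (m.vf (m.Z t z)).1, t • (m.vf (m.Z t z)).2 + (m.Z t z).2) := by
  have h1 : HasDerivAt (fun r : ℝ => (z.1, r • z.2)) (0, z.2) 1 :=
    (hasDerivAt_const _ _).prodMk (by simpa using (hasDerivAt_id (1 : ℝ)).smul_const z.2)
  have h2 := (dZ hm t z).comp_hasDerivAt_of_eq 1 h1 (by simp)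
  have h3 : HasDerivAt (fun r : ℝ => m.Z (r * t) z) (t • m.vf (m.Z t z)) 1 := by
    have := (hm.ode z (1 * t)).scomp (1 : ℝ) (hasDerivAt_mul_const t)
    rwa [one_mul] at this
  have h4 := HasDerivAt.prodMk ((ContinuousLinearMap.fst ℝ V V).hasFDerivAt.comp_hasDerivAt _ h3)
    ((hasDerivAt_id (1 : ℝ)).smul
      ((ContinuousLinearMap.snd ℝ V V).hasFDerivAt.comp_hasDerivAt _ h3))
  have h5 := h2.unique (h4.congr_of_eventuallyEq (Eventually.of_forall fun r =>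
    hj.scale t r z.1 z.2))
  simpa using h5

theorem J_rad (hm : m.OK) (hj : m.Jac) (t : ℝ) (z : V × V) :
    m.J z (0, z.2) t = t • (m.Z t z).2 ∧ m.J' z (0, z.2) t = (m.Z t z).2 := by
  rw [MF.J, MF.J', dZ_rad hm hj, hor_ap, ver_ap]
  simp [MF.vf, hm.SR]

theorem in_ver (hm : m.OK) (z ξ : V × V) : ⟪m.ver z ξ, z.2⟫ = ⟪ξ.2, z.2⟫ := by
  have h := hm.skew z.1 ξ.1 z.2 z.2
  rw [real_inner_comm (m.om z.1 ξ.1 z.2)] at h
  rw [ver_ap, inner_add_left]
  linarith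

theorem in_J (hm : m.OK) (hj : m.Jac) (t : ℝ) (z ξ : V × V) :
    ⟪m.J' z ξ t, (m.Z t z).2⟫ = ⟪ξ.2, z.2⟫ ∧
      ⟪m.J z ξ t, (m.Z t z).2⟫ = ⟪m.hor z ξ, z.2⟫ + t * ⟪ξ.2, z.2⟫ := by
  have v1 : ∀ w : V × V, m.hor w (m.vf w) = w.2 := fun w => hm.SR _ _
  have v2 : ∀ w : V × V, m.ver w (m.vf w) = 0 := fun w => neg_add_cancel _
  have h1 := hj.symp z ξ (m.vf z) t
  rw [MF.J.eq_1 m z (m.vf z), MF.J'.eq_1 m z (m.vf z), dZ_vf hm, v1, v1, v2, v2, in_ver hm,
    inner_zero_right, inner_zero_right] at h1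
  have h2 := hj.symp z ξ (0, z.2) t
  rw [(J_rad hm hj t z).1, (J_rad hm hj t z).2, inner_smul_right, hor_ap z (0, z.2),
    ver_ap z (0, z.2)] at h2
  simp only [map_zero, zero_apply, add_zero, inner_zero_right, sub_zero] at h2
  have h3 : ⟪m.J' z ξ t, (m.Z t z).2⟫ = ⟪ξ.2, z.2⟫ := by linarith
  rw [h3] at h2
  exact ⟨h3, by linarith⟩

theorem dσ (hf : m.Front σ) {a : V} (ha : a ≠ 0) : HasFDerivAt σ (fderiv ℝ σ a) a :=
  ((hf.c1.contDiffAt (isOpen_ne.mem_nhds ha)).differentiableAt one_ne_zero).hasFDerivAt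

theorem dσ_rad (hf : m.Front σ) {a : V} (ha : a ≠ 0) : fderiv ℝ σ a a = (0, (σ a).2) := by
  have h0 : ∀ b : V, HasDerivAt (fun r : ℝ => r • b) b 1 := fun b => by
    simpa using (hasDerivAt_id (1 : ℝ)).smul_const b
  have h1 := (dσ hf ha).comp_hasDerivAt_of_eq 1 (h0 a) (one_smul ℝ a).symm
  refine h1.unique (((hasDerivAt_const (1 : ℝ) (σ a).1).prodMk (h0 _)).congr_of_eventuallyEq ?_)
  filter_upwards [isOpen_ne.mem_nhds (one_ne_zero (α := ℝ))] with r hr using hf.hom r a hr ha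

theorem dσ_in (hf : m.Front σ) {a : V} (ha : a ≠ 0) (e : V) :
    ⟪(fderiv ℝ σ a e).2, (σ a).2⟫ = ⟪a, e⟫ := by
  have h1 := (dσ hf ha).snd.norm_sq
  have h2 := (hasFDerivAt_id (𝕜 := ℝ) a).norm_sq.congr_of_eventuallyEq
    (f₁ := fun b => ‖(σ b).2‖ ^ 2) (by
      filter_upwards [isOpen_ne.mem_nhds ha] with b hb
      rw [hf.norm b hb, id])
  have h3 := DFunLike.congr_fun (h1.unique h2) e
  rw [real_inner_comm]
  simpa using h3

/-- The covariant derivative at time `t` of the Jacobi fields of the front. -/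
def Pm (m : MF) (σ : V → V × V) (t : ℝ) (a : V) : V →L[ℝ] V :=
  (m.ver (m.Z t (σ a))).comp ((fderiv ℝ (m.Z t) (σ a)).comp (fderiv ℝ σ a))

theorem in_PQ (hm : m.OK) (hj : m.Jac) (hf : m.Front σ) {a : V} (ha : a ≠ 0) (t : ℝ) (e : V) :
    ⟪(m.Z t (σ a)).2, Pm m σ t a e⟫ = ⟪a, e⟫ ∧
      ⟪(m.Z t (σ a)).2, Qm m σ t a e⟫ = t * ⟪a, e⟫ := by
  obtain ⟨h1, h2⟩ := in_J hm hj t (σ a) (fderiv ℝ σ a e)
  rw [dσ_in hf ha] at h1 h2
  rw [real_inner_comm (σ a).2, hf.leg a e ha, zero_add] at h2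
  exact ⟨(real_inner_comm _ _).trans h1, (real_inner_comm _ _).trans h2⟩

theorem det_ne {L : V →L[ℝ] V} (h : ∀ e, L e = 0 → e = 0) : L.det ≠ 0 := fun h0 =>
  LinearMap.det_eq_zero_iff_ker_ne_bot.1 h0 (LinearMap.ker_eq_bot'.2 h)

theorem sign {f : ℝ → V →L[ℝ] V} (hc : Continuous f) {c : ℝ} (h0 : 0 ≤ c)
    (h : ∀ t ∈ Icc 0 c, ∀ e, f t e = 0 → e = 0) : 0 < (f 0).det * (f c).det := by
  by_contra hn
  have h1 := det_ne (h 0 ⟨le_rfl, h0⟩)
  have hg : Continuous fun t => (f 0).det * (f t).det :=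
    continuous_const.mul (ContinuousLinearMap.continuous_det.comp hc)
  obtain ⟨t, ht, e⟩ := intermediate_value_Icc' h0 hg.continuousOn
    (mem_Icc.2 ⟨not_lt.1 hn, mul_self_nonneg _⟩)
  exact mul_ne_zero h1 (det_ne (h t ht)) e

theorem pos_of_mul_pos_right' {x y : ℝ} (h : 0 < x * y) (hy : 0 ≤ y) : 0 < x := by
  by_contra hn
  exact absurd h (not_lt.2 (mul_nonpos_of_nonpos_of_nonneg (not_lt.1 hn) hy))

theorem mix (hm : m.OK) (hj : m.Jac) (hf : m.Front σ) {T : ℝ} (hg : m.Good σ T) (hT : 0 < T)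
    {a : V} (ha : ‖a‖ = 1) (s : ℝ) (hs : s ∈ Icc (0 : ℝ) 1) (e : V)
    (h : ((1 - s) • Pm m σ T a + s • Qm m σ T a) e = 0) : e = 0 := by
  have a0 : a ≠ 0 := fun e => by simp [e] at ha
  obtain ⟨h1, h2⟩ := in_PQ hm hj hf a0 T e
  rw [add_apply, smul_apply, smul_apply] at h
  have h3 := congrArg (fun v => ⟪(m.Z T (σ a)).2, v⟫) h
  simp only [inner_add_right, inner_smul_right, h1, h2, inner_zero_right] at h3
  have h4 : 0 < 1 - s + s * T := by
    rcases hs.1.eq_or_lt with rfl | h5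
    · simp
    · have := mul_pos h5 hT
      linarith [hs.2]
  have h5 : ⟪a, e⟫ = 0 := (mul_eq_zero.1 (by linarith : (1 - s + s * T) * ⟪a, e⟫ = 0)).resolve_left
    h4.ne'
  by_contra e0
  have h6 : 0 < ⟪Qm m σ T a e, Pm m σ T a e⟫ := hg.pos a e T ha h5 e0 le_rfl
  have h7 := congrArg (fun v => ⟪Qm m σ T a e + Pm m σ T a e, v⟫) h
  simp only [inner_add_right, inner_add_left, inner_smul_right, inner_zero_right,
    real_inner_comm (Qm m σ T a e) (Pm m σ T a e)] at h7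
  have h8 := mul_nonneg (sub_nonneg.2 hs.2) (real_inner_self_nonneg (x := Pm m σ T a e))
  have h9 := mul_nonneg hs.1 (real_inner_self_nonneg (x := Qm m σ T a e))
  linarith

/-- The direction of a vector. -/
def nr (b : V) : V := ‖b‖⁻¹ • b

theorem nr_norm {b : V} (hb : b ≠ 0) : ‖nr b‖ = 1 := norm_smul_inv_norm hb

theorem nr_ne {b : V} (hb : b ≠ 0) : nr b ≠ 0 := fun e => by simpa [e] using nr_norm hb

theorem nr_one {a : V} (ha : ‖a‖ = 1) : nr a = a := by rw [nr, ha, inv_one, one_smul]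

theorem nr_cd {b : V} (hb : b ≠ 0) : ContDiffAt ℝ 1 nr b :=
  ((contDiffAt_id.norm ℝ hb).inv (norm_ne_zero_iff.2 hb)).smul contDiffAt_id

theorem nr_d {b : V} (hb : b ≠ 0) : HasFDerivAt nr (fderiv ℝ nr b) b :=
  ((nr_cd hb).differentiableAt one_ne_zero).hasFDerivAt

theorem nr_perp {b : V} (hb : b ≠ 0) (e : V) : ⟪nr b, fderiv ℝ nr b e⟫ = 0 := by
  have h2 := (hasFDerivAt_const (𝕜 := ℝ) (1 : ℝ) b).congr_of_eventuallyEq
    (f₁ := fun b => ‖nr b‖ ^ 2) (by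
      filter_upwards [isOpen_ne.mem_nhds hb] with b hb
      rw [nr_norm hb, one_pow])
  simpa using DFunLike.congr_fun ((nr_d hb).norm_sq.unique h2) e

theorem nr_der {a : V} (ha : ‖a‖ = 1) (e : V) : fderiv ℝ nr a e = e - ⟪a, e⟫ • a := by
  have a0 : a ≠ 0 := fun e => by simp [e] at ha
  have h1 := (((contDiffAt_id.norm ℝ a0 (n := 1)).differentiableAt
    one_ne_zero).hasFDerivAt).smul (nr_d a0)
  have h2 := (hasFDerivAt_id (𝕜 := ℝ) a).congr_of_eventuallyEq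
    (f₁ := (fun b : V => ‖id b‖) • nr) (by
      filter_upwards [isOpen_ne.mem_nhds a0] with b hb
      simp [nr, smul_smul, mul_inv_cancel₀ (norm_ne_zero_iff.2 hb)])
  have h3 := DFunLike.congr_fun (h1.unique h2) e
  have h4 := nr_perp a0 e
  simp only [id, ha, one_smul, add_apply, ContinuousLinearMap.smulRight_apply, nr_one ha,
    ContinuousLinearMap.id_apply] at h3
  rw [nr_one ha] at h4
  have h5 := congrArg (fun v => ⟪a, v⟫) h3
  simp only [inner_add_right, inner_smul_right, h4, real_inner_self_eq_norm_sq, ha] at h5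
  rw [← h5, eq_sub_iff_add_eq]
  simpa using h3

theorem zh_der (hm : m.OK) (hf : m.Front σ) (T : ℝ) {b : V} (hb : b ≠ 0) (e : V) :
    fderiv ℝ (zh m σ T) b e =
      fderiv ℝ (m.Z T) (σ (nr b)) (fderiv ℝ σ (nr b) (fderiv ℝ nr b e)) :=
  DFunLike.congr_fun ((dZ hm T _).comp b ((dσ hf (nr_ne hb)).comp b (nr_d hb))).fderiv e

end RFr

open RFr in
theorem rowFr : SFr := by
  intro m _ σ T hm hj _ _ hf hg hT
  have ne : ∀ {a : V}, ‖a‖ = 1 → a ≠ 0 := fun ha e => by simp [e] at ha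
  have nw : ∀ {a : V}, ‖a‖ = 1 → ‖(m.Z T (σ a)).2‖ = 1 := fun ha => by
    rw [hj.norm, hf.norm _ (ne ha), ha]
  have qi : ∀ {a : V}, ‖a‖ = 1 → ∀ e, Qm m σ T a e = 0 → e = 0 := fun ha e h =>
    mix hm hj hf hg hT ha 1 ⟨zero_le_one, le_rfl⟩ e (by simpa using h)
  refine ⟨fun b hb => ((cZ hm T).contDiffAt.comp b ((hf.c1.contDiffAt
      (isOpen_ne.mem_nhds (nr_ne hb))).comp b (nr_cd hb))).contDiffWithinAt,
    fun b hb => nw (nr_norm hb), fun b e hb => ?_, fun a e ha he => ?_, fun a ha => ?_,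
    fun a ha => ?_, fun a e ha he => ?_, fun a ha => ?_, fun a k ha hk => ?_, fun a t ha => ?_,
    fun a ha => ?_⟩
  · have := (in_PQ hm hj hf (nr_ne hb) T (fderiv ℝ nr b e)).2
    rw [nr_perp hb, mul_zero] at this
    rw [zh_der hm hf T hb]
    exact this
  · rw [zh_der hm hf T (ne ha), nr_der ha, he, zero_smul, sub_zero, nr_one ha]
    rfl
  · rw [zh_der hm hf T (ne ha), nr_der ha, real_inner_self_eq_norm_sq, ha]
    simp
  · rw [← (J_rad hm hj T (σ a)).1, ← dσ_rad hf (ne ha)]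
    rfl
  · rw [(in_PQ hm hj hf (ne ha) T e).2, he, mul_zero]
  · have h1 := sign (f := fun t => Pm m σ t a) (continuous_clm_apply.2 fun e =>
      continuous_iff_continuousAt.2 fun t => (hj.d2 (σ a) (fderiv ℝ σ a e) t).continuousAt) hT.le
      fun t _ e h => hg.inj a e t ha (by
        rw [← (in_PQ hm hj hf (ne ha) t e).1, h, inner_zero_right]) h
    have h2 := sign (f := fun s : ℝ => (1 - s) • Pm m σ T a + s • Qm m σ T a) (by fun_prop)
      zero_le_one (mix hm hj hf hg hT ha)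
    have e : m.dt σ 0 a = (Pm m σ 0 a).det := by
      have : m.Z 0 = id := funext hm.zero
      refine congrArg ContinuousLinearMap.det (ContinuousLinearMap.ext fun e => ?_)
      rw [add_apply, smul_apply, zero_smul, add_zero, Pm, this, fderiv_id]
      rfl
    have e1 : ((1 : ℝ) - 0) • Pm m σ T a + (0 : ℝ) • Qm m σ T a = Pm m σ T a :=
      ContinuousLinearMap.ext fun e => by simp
    have e2 : ((1 : ℝ) - 1) • Pm m σ T a + (1 : ℝ) • Qm m σ T a = Qm m σ T a :=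
      ContinuousLinearMap.ext fun e => by simp
    rw [e1, e2] at h2
    rw [e]
    exact pos_of_mul_pos_right' (by have := mul_pos h1 h2; linarith)
      (mul_self_nonneg (Pm m σ T a).det)
  · obtain ⟨e, he⟩ := LinearMap.injective_iff_surjective.1
      (LinearMap.ker_eq_bot.1 (LinearMap.ker_eq_bot'.2 (qi ha)) :
        Function.Injective (Qm m σ T a : V →ₗ[ℝ] V)) (k - ⟪(m.Z T (σ a)).2, k⟫ • (m.Z T (σ a)).2)
    replace he : Qm m σ T a e = _ := he
    have h1 : ⟪(m.Z T (σ a)).2, Qm m σ T a e⟫ = 0 := by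
      rw [he, inner_sub_right, inner_smul_right, real_inner_self_eq_norm_sq, nw ha]
      ring
    have h2 := hk e ((mul_eq_zero.1 ((in_PQ hm hj hf (ne ha) T e).2.symm.trans h1)).resolve_left
      hT.ne')
    refine ⟨_, sub_eq_zero.1 (he.symm.trans (inner_self_eq_zero (𝕜 := ℝ).1 ?_))⟩
    nth_rewrite 1 [he]
    rw [inner_sub_left, inner_smul_left, h1, h2]
    simp
  · rw [← neg_one_smul ℝ a, hf.hom _ a (by norm_num) (ne ha), hj.scale]
    simp
  · rw [MF.A, ContinuousLinearMap.comp_apply, dσ_rad hf (ne ha), hor_ap, map_zero]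

end

end Pool.Agent.MP_3ee8cb_gt.D3CT
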