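import Pool.Agent.MP_3ee8cb_gt.D3CT.Spec

/-! The signed count from the rows. -/

namespace Pool.Agent.MP_3ee8cb_gt.D3CT

open Set Filter Topology Pool.Agent.MP_3ee8cb_gt.D3
open D3MO (S2 Ch Rg Cr Sa)
open scoped RealInnerProductSpace

namespace Asm

theorem cnt (hM : D3MO.SMorse) (hS : D3MO.SSph) (g : ℝ → S2 → ℝ) (Es : Set (ℝ × V)) (ar : V → ℝ)
    (t0 : ℝ) (p0 : S2) (fin : Es.Finite) (un : ∀ e ∈ Es, ‖e.2‖ = 1)
    (one : ∀ e ∈ Es, ∀ e' ∈ Es, e.1 = e'.1 → e = e')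
    (cg : Continuous fun q : ℝ × S2 => g q.1 q.2) (anti : ∀ p, Antitone fun t => g t p)
    (nE : (t0, p0.1) ∉ Es) (z0 : g t0 p0 = 0) (m0 : ∀ q, q ≠ p0 → 0 < g t0 q)
    (l0 : ∀ s, t0 < s → g s p0 < 0)
    (tri : ∀ t p, g t p = 0 → ∃ φ : W → S2, Ch φ p ∧
      (Rg (fun z => g t (φ z)) ∨ (t, p.1) ∈ Es ∨ (t = t0 ∧ p = p0)))
    (ev : ∀ t (p : S2), (t, p.1) ∈ Es → g t p = 0 ∧ (∀ s, t < s → g s p < 0) ∧
      (∀ s, s < t → 0 < g s p) ∧ ar p ≠ 0 ∧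
      (0 < ar p → (∀ᶠ q in 𝓝[≠] p, 0 < g t q) ∨ ∀ᶠ q in 𝓝[≠] p, g t q < 0) ∧
      (ar p < 0 → ∃ φ : W → S2, Ch φ p ∧ Sa fun z => g t (φ z)))
    (con : ∀ p q, (∃ t, g t p < 0) → (∃ t, g t q < 0) → JoinedIn {p | ∃ t, g t p < 0} p q)
    (pos : ∃ e, ∀ t, 0 < g t e) (ini : ∃ t, ∀ p, 0 < g t p) :
    {e ∈ Es | 0 < ar e.2}.ncard ≤ {e ∈ Es | ar e.2 < 0}.ncard := by
  classical
  obtain ⟨hl, lp, pc⟩ := hS
  let j : ℝ × S2 → ℝ × V := fun e => (e.1, e.2.1)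
  have ji : Function.Injective j := fun a b h =>
    Prod.ext (Prod.mk.inj h).1 (Subtype.ext (Prod.mk.inj h).2)
  have fE : (j ⁻¹' Es).Finite := fin.preimage ji.injOn
  have ex : ∀ R : ℝ × S2 → Prop, ∃ F : Finset (ℝ × S2), ∀ e, e ∈ F ↔ (e.1, e.2.1) ∈ Es ∧ R e :=
    fun R => ⟨fE.toFinset.filter R, fun e => by
      rw [Finset.mem_filter, fE.mem_toFinset]
      rfl⟩
  obtain ⟨Mn, mMn⟩ := ex fun e => 0 < ar e.2 ∧ ∀ᶠ q in 𝓝[≠] e.2, 0 < g e.1 q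
  obtain ⟨Mx, mMx⟩ := ex fun e => 0 < ar e.2 ∧ ¬ ∀ᶠ q in 𝓝[≠] e.2, 0 < g e.1 q
  obtain ⟨Sd, mSd⟩ := ex fun e => ar e.2 < 0
  have nM : (t0, p0) ∉ Mn := fun h => nE ((mMn _).1 h).1
  have mn : ∀ a ∈ insert (t0, p0) Mn, g a.1 a.2 = 0 ∧ (∀ᶠ q in 𝓝[≠] a.2, 0 < g a.1 q) ∧
      ∀ t, a.1 < t → g t a.2 < 0 := fun a ha => by
    rcases Finset.mem_insert.1 ha with rfl | ha
    · exact ⟨z0, eventually_nhdsWithin_of_forall m0, l0⟩
    · obtain ⟨h1, h2⟩ := (mMn _).1 ha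
      have := ev a.1 a.2 h1
      exact ⟨this.1, h2.2, this.2.1⟩
  have dat : D3MO.Dat W g (insert (t0, p0) Mn) Mx Sd :=
    { cp := fun t => cg.comp (continuous_const.prodMk continuous_id)
      ct := fun p => cg.comp (continuous_id.prodMk continuous_const)
      anti := anti
      mn := mn
      mx := fun a ha => by
        obtain ⟨h1, h2, h3⟩ := (mMx _).1 ha
        have := ev a.1 a.2 h1
        exact ⟨this.1, (this.2.2.2.2.1 h2).resolve_left h3, this.2.2.1⟩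
      sd := fun a ha b hb h => ji (one _ ((mSd _).1 ha).1 _ ((mSd _).1 hb).1 h)
      loc := fun t p h => by
        obtain ⟨φ, ch, r | r | r⟩ := tri t p h
        · exact ⟨φ, ch, .inl r⟩
        · have := ev t p r
          rcases lt_or_gt_of_ne this.2.2.2.1 with c | c
          · obtain ⟨ψ, c1, c2⟩ := this.2.2.2.2.2 c
            exact ⟨ψ, c1, .inr (.inr (.inr ⟨(mSd _).2 ⟨r, c⟩, c2⟩))⟩
          · by_cases hc : ∀ᶠ q in 𝓝[≠] p, 0 < g t q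
            · exact ⟨φ, ch, .inr (.inl (Finset.mem_insert_of_mem ((mMn _).2 ⟨r, c, hc⟩)))⟩
            · exact ⟨φ, ch, .inr (.inr (.inl ((mMx _).2 ⟨r, c, hc⟩)))⟩
        · obtain ⟨rfl, rfl⟩ := r
          exact ⟨φ, ch, .inr (.inl (Finset.mem_insert_self _ _))⟩
      con := fun a ha b hb =>
        con _ _ ⟨_, (mn a ha).2.2 _ (lt_add_one _)⟩ ⟨_, (mn b hb).2.2 _ (lt_add_one _)⟩
      pos := pos
      ini := ini }
  have key := hM S2 W (by simp) hl g _ _ _ dat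
  rw [Finset.card_insert_of_notMem nM] at key
  have tr : ∀ (R : V → Prop) (F : Finset (ℝ × S2)),
      (∀ e, e ∈ F ↔ (e.1, e.2.1) ∈ Es ∧ R e.2) → {e ∈ Es | R e.2}.ncard = F.card :=
    fun R F hF => by
      rw [← Set.ncard_coe_finset, ← Set.ncard_image_of_injective _ ji]
      congr 1
      ext e
      constructor
      · rintro ⟨h1, h2⟩
        exact ⟨(e.1, ⟨e.2, mem_sphere_zero_iff_norm.2 (un e h1)⟩),
          Finset.mem_coe.2 ((hF _).2 ⟨h1, h2⟩), rfl⟩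
      · rintro ⟨a, ha, rfl⟩
        exact (hF _).1 (Finset.mem_coe.1 ha)
  rw [tr (fun a => ar a < 0) Sd mSd, tr (fun a => 0 < ar a) (Mn ∪ Mx) fun e => by
    rw [Finset.mem_union, mMn, mMx]
    tauto]
  have := Finset.card_union_le Mn Mx
  omega

end Asm

theorem asm : OfAsm := by
  intro hM hD hT hS hBs hFt hFr hGn hHs hBg hRg hB1 hEv hNm hPc hCon hFin
  intro m lg σ T ok jac up had front good pos wid u un gen
  rcases (Ev m σ u).eq_empty_or_nonempty with h0 | ⟨e0, he0⟩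
  · simp [h0]
  have bs := hBs m lg ok jac had
  obtain ⟨n, ft⟩ := hFt m lg u ok jac had bs un
  have cx : Cx m lg σ T u n := ⟨ok, jac, up, had, front, good, pos, wid, bs,
    hFr m lg σ T ok jac up had front good pos, un, gen, ft, hGn, e0.1, e0.2, he0.1, he0.2.1⟩
  have bg := hBg _ _ _ _ _ _ cx
  have tri := hRg _ _ _ _ _ _ cx bg
  obtain ⟨t0, p0, nE, z0, m0, l0, u0⟩ := hB1 _ _ _ _ _ _ cx bg tri
  have fin := hFin _ _ _ _ _ _ cx
  have lp := hS.2.1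
  have con := hCon S2 (ds m lg σ T u n) T bg.cd (hNm _ _ _ _ _ _ cx bg)
    (hPc hT hS _ _ _ _ _ _ cx bg)
  have hO : {p | ∃ t, gg m lg σ T u n t p < 0} = {p | ds m lg σ T u n p < T} := Set.ext bg.iff
  refine ⟨fin, Asm.cnt hM hS (gg m lg σ T u n) (Ev m σ u) (m.ar σ) t0 p0 fin (fun e he => he.1)
    gen.one bg.cg bg.anti nE z0 m0 l0 (fun t p h => ?_) (hEv hHs hD _ _ _ _ _ _ cx bg)
    (fun p q hp hq => ?_) bg.pos bg.ini⟩
  · obtain ⟨ι, φ, gn⟩ := hGn p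
    exact ⟨φ, gn.ch, (tri t p ι φ gn h).imp_right fun r => r.imp_right (u0 t p)⟩
  · rw [hO]
    exact con p q ((bg.iff p).1 hp) ((bg.iff q).1 hq)

end Pool.Agent.MP_3ee8cb_gt.D3CT
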