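import Pool.Agent.MP_3ee8cb_gt.D3CT.Spec

/-! The first birth. -/

namespace Pool.Agent.MP_3ee8cb_gt.D3CT

open Set Filter Topology Pool.Agent.MP_3ee8cb_gt.D3
open D3MO (S2 Ch Rg Cr Sa)
open scoped RealInnerProductSpace

namespace RB1

variable {m : MF} {lg : V × V → V} {σ : V → V × V} {T : ℝ} {u : V × V} {n : V → ℝ}

theorem n1 (p : S2) : ‖(p : V)‖ = 1 := norm_eq_of_mem_sphere p

theorem nw (x : Cx m lg σ T u n) (p : S2) (t : ℝ) : ‖(m.Z t (σ p)).2‖ = 1 := by
  rw [x.jac.norm, x.front.norm _ (ne_zero_of_mem_unit_sphere p), n1]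

theorem zneg (x : Cx m lg σ T u n) (p : S2) : zz m σ T (-p : S2) = (m.Z (-T) (σ p)).1 := by
  unfold zz
  rw [coe_neg_sphere, x.fr.neg _ _ (n1 p)]

theorem lt_n (x : Cx m lg σ T u n) {y : V} {t : ℝ}
    (h : 0 < ⟪lg ((m.Z t u).1, y), (m.Z t u).2⟫) : t < n y := by
  rcases lt_trichotomy t (n y) with h1 | h1 | h1
  · exact h1
  · have := x.ft.zero y
    rw [← h1] at this
    exact absurd this h.ne'
  · exact absurd (x.ft.neg y t h1) h.not_gt

theorem n_lt (x : Cx m lg σ T u n) {y : V} {t : ℝ}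
    (h : ⟪lg ((m.Z t u).1, y), (m.Z t u).2⟫ < 0) : n y < t := by
  rcases lt_trichotomy t (n y) with h1 | h1 | h1
  · exact absurd (x.ft.pos y t h1) h.not_gt
  · have := x.ft.zero y
    rw [← h1] at this
    exact absurd this h.ne
  · exact h1

theorem facts (x : Cx m lg σ T u n) (b : Bg m lg σ T u n) {t : ℝ} {p : S2}
    (h : T2 m σ T u n t p) : gg m lg σ T u n t p = 0 ∧
      (∀ q, q ≠ p → 0 < gg m lg σ T u n t q) ∧ ∀ s, t < s → gg m lg σ T u n s p < 0 := by
  obtain ⟨h1, h2⟩ := h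
  have hT := x.pos
  have hc := nw x p (2 * T)
  have a1 : lg ((m.Z t u).1, zz m σ T p) = (T - 2 * T) • (m.Z (2 * T) (σ p)).2 := by
    rw [h1]; exact x.bs.geo _ _ _
  have a2 : lg ((m.Z t u).1, zz m σ T (-p : S2)) = (-T - 2 * T) • (m.Z (2 * T) (σ p)).2 := by
    rw [h1, zneg x]; exact x.bs.geo _ _ _
  have g0 : gg m lg σ T u n t p = 0 := by
    unfold gg
    rw [min_eq_left h2.le, a1, norm_smul, hc, mul_one, Real.norm_eq_abs, sq_abs]
    ring
  have a3 := x.ft.pos _ t h2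
  rw [a1, real_inner_smul_left] at a3
  have a4 : t < n (zz m σ T (-p : S2)) := by
    refine lt_n x ?_
    rw [a2, real_inner_smul_left]
    nlinarith
  have a5 : ‖lg ((m.Z t u).1, zz m σ T (-p : S2))‖ = 3 * T := by
    rw [a2, norm_smul, hc, mul_one, Real.norm_eq_abs, abs_of_neg (by linarith)]
    ring
  have a6 : ∀ l, l ≤ t → 3 * T ≤ ‖lg ((m.Z l u).1, zz m σ T (-p : S2))‖ := by
    intro l hl
    rcases hl.eq_or_lt with rfl | hl
    · exact a5.ge
    · exact a5 ▸ (x.ft.anti _ l t hl a4.le).le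
  refine ⟨g0, fun q hq => ?_, fun s hs => g0 ▸ b.lt p t s hs h2⟩
  have c1 := a6 (min t (n (zz m σ T q))) (min_le_left _ _)
  have c2 := x.had.tri (m.Z (min t (n (zz m σ T q))) u).1 (zz m σ T q) (zz m σ T (-p : S2))
  have c3 : ‖lg (zz m σ T q, zz m σ T (-p : S2))‖ < 2 * T := by
    refine (x.wid.diam _ _ (n1 q) (n1 (-p))).lt_of_ne fun e => hq ?_
    have := x.wid.eq _ _ (n1 q) (n1 (-p)) e
    rw [coe_neg_sphere, neg_inj] at this
    exact Subtype.ext this.symm
  unfold gg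
  nlinarith

theorem ex (x : Cx m lg σ T u n) (b : Bg m lg σ T u n) (tr : Tri m lg σ T u n) :
    ∃ (t : ℝ) (p : S2), (t, p.1) ∉ Ev m σ u ∧ T2 m σ T u n t p := by
  have hT := x.pos
  set S : Set ℝ := Prod.fst '' {q : ℝ × S2 | gg m lg σ T u n q.1 q.2 ≤ 0} with hS
  have cl : IsClosed S :=
    isClosedMap_fst_of_compactSpace _ (isClosed_le b.cg continuous_const)
  have ne : S.Nonempty := by
    obtain ⟨t, a, ha, e⟩ := x.mt
    let p : S2 := ⟨a, by simpa using ha⟩
    refine ⟨t, (t, p), (b.le p t t le_rfl).trans ?_, rfl⟩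
    have a1 : lg ((m.Z t u).1, zz m σ T p) = (T - 0) • (m.Z 0 (σ p)).2 := by
      rw [← x.bs.geo, x.ok.zero, ← e]
      rfl
    rw [a1, norm_smul, nw x, mul_one, Real.norm_eq_abs, sq_abs]
    linarith [show (T - 0) ^ 2 = T ^ 2 by ring]
  have bd : BddBelow S := by
    obtain ⟨t₀, h₀⟩ := b.ini
    refine ⟨t₀, ?_⟩
    rintro _ ⟨⟨t, p⟩, h, rfl⟩
    by_contra hh
    exact absurd ((b.anti p (not_le.1 hh).le).trans h) (h₀ p).not_ge
  obtain ⟨⟨t, p⟩, hp, e⟩ := cl.csInf_mem ne bd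
  change t = sInf S at e
  change gg m lg σ T u n t p ≤ 0 at hp
  have ge : ∀ q, 0 ≤ gg m lg σ T u n t q := by
    intro q
    have c0 : Continuous fun s : ℝ => (s, q) := continuous_id.prodMk continuous_const
    have c : Continuous fun s : ℝ => gg m lg σ T u n s q := by
      have := b.cg.comp c0
      simpa only [Function.comp_def] using this
    refine ge_of_tendsto (c.continuousAt.continuousWithinAt (s := Iio t) (x := t)) ?_
    filter_upwards [self_mem_nhdsWithin] with s hs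
    by_contra hh
    exact absurd (csInf_le bd ⟨(s, q), (not_le.1 hh).le, rfl⟩) (e ▸ (mem_Iio.1 hs).not_ge)
  have g0 : gg m lg σ T u n t p = 0 := le_antisymm hp (ge p)
  have nev : (t, p.1) ∉ Ev m σ u := by
    rintro ⟨-, h1, h2⟩
    change (σ p).1 = (m.Z t u).1 at h1
    change 0 < ⟪(m.Z t u).2, (σ p).2⟫ at h2
    have a1 : lg ((m.Z t u).1, zz m σ T (-p : S2)) = (-T - 0) • (m.Z 0 (σ p)).2 := by
      rw [← x.bs.geo, x.ok.zero, ← h1, zneg x]
    have a2 : n (zz m σ T (-p : S2)) < t := by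
      refine n_lt x ?_
      rw [a1, real_inner_smul_left, x.ok.zero, real_inner_comm]
      nlinarith
    have a3 := x.ft.mono _ _ t le_rfl a2
    rw [a1, norm_smul, nw x, mul_one, Real.norm_eq_abs, abs_of_neg (by linarith)] at a3
    have a4 := ge (-p)
    unfold gg at a4
    rw [min_eq_right a2.le] at a4
    nlinarith [norm_nonneg (lg ((m.Z (n (zz m σ T (-p : S2))) u).1, zz m σ T (-p : S2)))]
  obtain ⟨ι, φ, gn⟩ := x.gn p
  rcases tr t p ι φ gn g0 with ⟨D, h1, -, h2⟩ | h | h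
  · refine absurd (IsLocalMin.hasFDerivAt_eq_zero ?_ h1.self_of_nhds) h2
    refine Eventually.of_forall fun z => ?_
    change gg m lg σ T u n t (φ 0) ≤ gg m lg σ T u n t (φ z)
    rw [gn.ch.zero, g0]
    exact ge _
  · exact absurd h nev
  · exact ⟨t, p, nev, h⟩

end RB1

open RB1 in
theorem rowB1 : SB1 := by
  intro m lg σ T u n x b tr
  obtain ⟨t, p, h1, h2⟩ := ex x b tr
  obtain ⟨f1, f2, f3⟩ := facts x b h2
  refine ⟨t, p, h1, f1, f2, f3, fun t' p' h' => ?_⟩
  obtain ⟨g1, g2, g3⟩ := facts x b h'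
  have ge : ∀ q, 0 ≤ gg m lg σ T u n t q := fun q => by
    rcases eq_or_ne q p with rfl | h
    · exact f1.ge
    · exact (f2 q h).le
  have ge' : ∀ q, 0 ≤ gg m lg σ T u n t' q := fun q => by
    rcases eq_or_ne q p' with rfl | h
    · exact g1.ge
    · exact (g2 q h).le
  have e : t' = t := by
    rcases lt_trichotomy t' t with h | h | h
    · exact absurd (g3 t h) (ge p').not_gt
    · exact h
    · exact absurd (f3 t' h) (ge' p).not_gt
  subst e
  refine ⟨rfl, ?_⟩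
  by_contra hh
  exact absurd g1 (f2 p' hh).ne'

end Pool.Agent.MP_3ee8cb_gt.D3CT
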