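import Pool.Agent.MP_3ee8cb_gt.D3CT.Spec

/-! Basic properties of the distance from the front to a geodesic. -/

namespace Pool.Agent.MP_3ee8cb_gt.D3CT

open Set Filter Topology Pool.Agent.MP_3ee8cb_gt.D3
open D3MO (S2)
open scoped RealInnerProductSpace

namespace RBg

variable {m : MF} {lg : V × V → V} {σ : V → V × V} {T : ℝ} {u : V × V} {n : V → ℝ}

theorem dle0 (h : Ft m lg u n) (x : V) (l : ℝ) :
    ‖lg ((m.Z (n x) u).1, x)‖ ≤ ‖lg ((m.Z l u).1, x)‖ := by
  rcases lt_trichotomy l (n x) with h1 | h1 | h1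
  · exact (h.anti x _ _ h1 le_rfl).le
  · rw [h1]
  · exact (h.mono x _ _ le_rfl h1).le

theorem le0 (h : Ft m lg u n) (x : V) {l t : ℝ} (hl : l ≤ t) :
    ‖lg ((m.Z (min t (n x)) u).1, x)‖ ≤ ‖lg ((m.Z l u).1, x)‖ := by
  rcases le_total l (n x) with h1 | h1
  · rcases (le_min hl h1).eq_or_lt with h2 | h2
    · rw [← h2]
    · exact (h.anti x _ _ h2 (min_le_right _ _)).le
  · rw [min_eq_right (h1.trans hl)]
    exact dle0 h x l

theorem nrm (p : S2) : ‖(p : V)‖ = 1 := by simp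

theorem ne0 {a : V} (h : ‖a‖ = 1) : a ≠ 0 := by
  rintro rfl
  simp at h

theorem cz (c : Cx m lg σ T u n) : Continuous fun p : S2 => zz m σ T p := by
  have h1 : Continuous fun p : S2 => σ p :=
    c.front.c1.continuousOn.comp_continuous continuous_subtype_val fun p => ne0 (nrm p)
  exact (c.ok.cZ.continuous.comp (continuous_const.prodMk h1)).fst

theorem cdist (c : Cx m lg σ T u n) {X : Type} [TopologicalSpace X] {l : X → ℝ} {x : X → V}
    (hl : Continuous l) (hx : Continuous x) :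
    Continuous fun q => ‖lg ((m.Z (l q) u).1, x q)‖ :=
  (c.had.c1.continuous.comp
    ((c.ok.cZ.continuous.comp (hl.prodMk continuous_const)).fst.prodMk hx)).norm

theorem zneg (c : Cx m lg σ T u n) {a : V} (ha : ‖a‖ = 1) :
    zz m σ T (-a) = (m.Z (-T) (σ a)).1 := by
  rw [zz, c.fr.neg a T ha]

theorem mid (c : Cx m lg σ T u n) {a : V} (ha : ‖a‖ = 1) (x : V) :
    2 * ‖lg ((σ a).1, x)‖ ^ 2 + 2 * T ^ 2 ≤
      ‖lg (zz m σ T a, x)‖ ^ 2 + ‖lg (zz m σ T (-a), x)‖ ^ 2 := by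
  rw [zneg c ha]
  exact c.bs.mid (σ a) x T ((c.front.norm a (ne0 ha)).trans ha)

theorem near (c : Cx m lg σ T u n) (a a₀ : V) (ha : ‖a‖ = 1) (h0 : ‖a₀‖ = 1) :
    ‖lg ((σ a₀).1, zz m σ T a)‖ < 2 * T := by
  have h1 := mid c h0 (zz m σ T a)
  have h2 := pow_le_pow_left₀ (norm_nonneg _) (c.wid.diam a₀ a h0 ha) 2
  have h3 := pow_le_pow_left₀ (norm_nonneg _) (c.wid.diam (-a₀) a (by simpa using h0) ha) 2
  have hT := c.pos
  refine lt_of_pow_lt_pow_left₀ 2 (by positivity) ?_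
  nlinarith [mul_pos hT hT]

theorem ini (c : Cx m lg σ T u n) : ∃ t, ∀ p, 0 < gg m lg σ T u n t p := by
  obtain ⟨R, hR⟩ := (isCompact_range
    (cdist c (l := fun _ => 0) continuous_const (cz c))).bddAbove
  refine ⟨-(|R| + T + 1), fun p => ?_⟩
  have h1 : ‖lg ((m.Z 0 u).1, zz m σ T p)‖ ≤ R := hR ⟨p, rfl⟩
  have hl := min_le_left (-(|R| + T + 1)) (n (zz m σ T p))
  rw [gg]
  generalize min (-(|R| + T + 1)) (n (zz m σ T p)) = l at hl
  have h2 := c.had.tri (m.Z l u).1 (zz m σ T p) (m.Z 0 u).1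
  rw [c.bs.geo, norm_smul, c.jac.norm, c.un, c.bs.sym (zz m σ T p), Real.norm_eq_abs] at h2
  have hT := c.pos
  have h3 : T < ‖lg ((m.Z l u).1, zz m σ T p)‖ := by
    linarith [le_abs_self R, le_abs_self (0 - l)]
  have := pow_lt_pow_left₀ h3 hT.le two_ne_zero
  linarith

theorem odd (c : Cx m lg σ T u n) : ∃ p : S2, n (zz m σ T p) = n (zz m σ T (-p : S2)) := by
  obtain ⟨_, a, ha, _⟩ := c.mt
  have hr : 1 < Module.rank ℝ V := by
    rw [← Module.finrank_eq_rank]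
    simp
  have : PreconnectedSpace S2 := Subtype.preconnectedSpace (isPreconnected_sphere hr 0 1)
  have hf := c.ft.cn.comp (cz c)
  have hg := hf.comp (continuous_neg (G := S2))
  let p : S2 := ⟨a, by simpa using ha⟩
  rcases le_total (n (zz m σ T p)) (n (zz m σ T (-p : S2))) with h | h
  · exact intermediate_value_univ₂ (a := p) (b := -p) hf hg h (by simpa using h)
  · exact intermediate_value_univ₂ (a := -p) (b := p) hf hg (by simpa using h) h

theorem far (c : Cx m lg σ T u n) : ∃ e, T < ds m lg σ T u n e := by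
  obtain ⟨p, hp⟩ := odd c
  by_contra hn
  push Not at hn
  have h1 := pow_le_pow_left₀ (norm_nonneg _) (hn p) 2
  have h2 := pow_le_pow_left₀ (norm_nonneg _) (hn (-p)) 2
  rw [← hp, c.bs.sym, coe_neg_sphere] at h2
  rw [c.bs.sym] at h1
  have h3 := mid c (nrm p) (m.Z (n (zz m σ T p)) u).1
  have h4 : ‖lg ((σ p).1, (m.Z (n (zz m σ T p)) u).1)‖ ^ 2 = 0 :=
    le_antisymm (by linarith) (sq_nonneg _)
  have h5 := c.bs.eq0 _ _ (norm_eq_zero.1 (pow_eq_zero_iff two_ne_zero |>.1 h4))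
  have h6 := c.bs.geo (σ p) 0 T
  rw [c.ok.zero, sub_zero] at h6
  have h7 := c.ft.zero (zz m σ T p)
  rw [← h5, show lg ((σ p).1, zz m σ T p) = T • (σ p).2 from h6, real_inner_smul_left,
    real_inner_comm] at h7
  exact (c.gen.reg _ p (nrm p) h5).2 ((mul_eq_zero.1 h7).resolve_left c.pos.ne')

end RBg

open RBg in
theorem rowBg : SBg := by
  intro m lg σ T u n c
  have hle : ∀ (p : S2) l t, l ≤ t →
      gg m lg σ T u n t p ≤ ‖lg ((m.Z l u).1, zz m σ T p)‖ ^ 2 / 2 - T ^ 2 / 2 := by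
    intro p l t h
    have := pow_le_pow_left₀ (norm_nonneg _) (le0 c.ft (zz m σ T p) h) 2
    rw [gg]
    linarith
  have hz := (cz c).comp (continuous_snd (X := ℝ))
  refine ⟨cz c, ?_, cdist c (c.ft.cn.comp (cz c)) (cz c),
    fun p s t h => hle p _ t ((min_le_left _ _).trans h), fun p s t h1 h2 => ?_, hle,
    fun p l => dle0 c.ft _ l, fun p => ⟨fun ⟨t, ht⟩ => ?_, fun h => ⟨n (zz m σ T p), ?_⟩⟩, ini c,
    near c, fun p => ?_, ?_⟩
  · exact (((cdist c (continuous_fst.min (c.ft.cn.comp hz)) hz).pow 2).div_const 2).sub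
      continuous_const
  · have := pow_lt_pow_left₀ (c.ft.anti (zz m σ T p) s _ (lt_min h1 h2) (min_le_right _ _))
      (norm_nonneg _) two_ne_zero
    rw [gg, gg, min_eq_left h2.le]
    linarith
  · refine (dle0 c.ft _ (min t (n (zz m σ T p)))).trans_lt
      (lt_of_pow_lt_pow_left₀ 2 c.pos.le ?_)
    rw [gg] at ht
    linarith
  · have := pow_lt_pow_left₀ h (norm_nonneg _) two_ne_zero
    rw [ds] at this
    rw [gg, min_self]
    linarith
  · obtain ⟨t, a, ha, h⟩ := c.mt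
    refine (dle0 c.ft _ t).trans_lt ?_
    rw [← h]
    exact near c p a (nrm p) ha
  · obtain ⟨e, he⟩ := far c
    refine ⟨e, fun t => ?_⟩
    have := pow_lt_pow_left₀ (he.trans_le (dle0 c.ft _ (min t (n (zz m σ T e))))) c.pos.le
      two_ne_zero
    rw [gg]
    linarith

end Pool.Agent.MP_3ee8cb_gt.D3CT
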