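import Pool.Agent.MP_3ee8cb_gt.D3CT.Spec

/-! Row Bs: basic facts on the logarithm of a Hadamard space. -/

namespace Pool.Agent.MP_3ee8cb_gt.D3CT

open Set Filter Topology Pool.Agent.MP_3ee8cb_gt.D3
open scoped RealInnerProductSpace

namespace RBs

variable {m : MF} {lg : V × V → V}

theorem step (hm : m.OK) (hj : m.Jac) (u : V × V) (s t : ℝ) :
    (m.Z 1 ((m.Z s u).1, (t - s) • (m.Z s u).2)).1 = (m.Z t u).1 := by
  rw [hj.scale, mul_one, Prod.mk.eta, ← hm.add, sub_add_cancel]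

theorem geo (hm : m.OK) (hj : m.Jac) (hh : m.Had lg) (u : V × V) (s t : ℝ) :
    lg ((m.Z s u).1, (m.Z t u).1) = (t - s) • (m.Z s u).2 := by
  rw [← step hm hj u s t, hh.xe]

theorem cvx (hm : m.OK) (hj : m.Jac) (hh : m.Had lg) (u : V × V) (x : V) (l l' : ℝ)
    (hu : ‖u.2‖ = 1) : ‖lg ((m.Z l u).1, x)‖ ^ 2 -
    2 * (l' - l) * ⟪lg ((m.Z l u).1, x), (m.Z l u).2⟫ + (l' - l) ^ 2 ≤
      ‖lg ((m.Z l' u).1, x)‖ ^ 2 := by
  have h := hh.hinge (m.Z l u).1 ((l' - l) • (m.Z l u).2) (lg ((m.Z l u).1, x))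
  rw [step hm hj, hh.ex] at h
  have h2 := pow_le_pow_left₀ (norm_nonneg _) h 2
  rw [norm_sub_sq_real, norm_smul, hj.norm, hu, mul_one, Real.norm_eq_abs, sq_abs,
    real_inner_smul_left, real_inner_comm] at h2
  linarith

theorem mm_app (x y b : V) : Mm m lg x y b = fderiv ℝ lg (x, y) (0, m.R y b) := rfl

theorem dlg (hh : m.Had lg) (q : V × V) : HasFDerivAt lg (fderiv ℝ lg q) q :=
  ((hh.c1.differentiable (by norm_num)) q).hasFDerivAt

theorem gau (hm : m.OK) (hh : m.Had lg) (x y b : V) :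
    ⟪lg (x, y), Mm m lg x y b⟫ = -⟪lg (y, x), b⟫ := by
  have h := hh.grad (x, y) (0, m.R y b)
  have d : HasFDerivAt (fun q => ‖lg q‖ ^ 2 / 2) _ (x, y) :=
    (dlg hh (x, y)).norm_sq.mul_const (2 : ℝ)⁻¹
  rw [d.fderiv] at h
  simp only [smul_apply, ContinuousLinearMap.comp_apply, innerSL_apply_apply, map_zero,
    inner_zero_right, hm.SR, Prod.swap_prod_mk, smul_eq_mul, nsmul_eq_mul] at h
  rw [mm_app]
  push_cast at h
  linarith

theorem rad (hm : m.OK) (hj : m.Jac) (hh : m.Had lg) (u : V × V) (s t : ℝ) :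
    Mm m lg (m.Z s u).1 (m.Z t u).1 (m.Z t u).2 = (m.Z s u).2 := by
  have h0 : HasDerivAt (fun r => (m.Z r u).1) (m.R (m.Z t u).1 (m.Z t u).2) t :=
    (ContinuousLinearMap.fst ℝ V V).hasFDerivAt.comp_hasDerivAt t (hm.ode u t)
  have h1 := (hasDerivAt_const t (m.Z s u).1).prodMk h0
  have h2 : HasDerivAt (fun r => lg ((m.Z s u).1, (m.Z r u).1)) _ t :=
    (dlg hh ((m.Z s u).1, (m.Z t u).1)).comp_hasDerivAt t h1
  have h3 : HasDerivAt (fun r => (r - s) • (m.Z s u).2) ((1 : ℝ) • (m.Z s u).2) t :=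
    ((hasDerivAt_id' t).sub_const s).smul_const _
  simp only [geo hm hj hh] at h2
  rw [mm_app, h2.unique h3, one_smul]

theorem mm_inj (hm : m.OK) (hh : m.Had lg) (x y b : V) (h : Mm m lg x y b = 0) : b = 0 := by
  have h1 : HasFDerivAt (fun z => lg (x, z))
      ((fderiv ℝ lg (x, y)).comp (ContinuousLinearMap.inr ℝ V V)) y :=
    (dlg hh (x, y)).comp y (hasFDerivAt_prodMk_right x y)
  have h2 : Differentiable ℝ fun c : V => (m.Z 1 (x, c)).1 :=
    ((hm.cZ.differentiable (by norm_num)).comp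
      ((differentiable_const (1 : ℝ)).prodMk ((differentiable_const x).prodMk
        differentiable_id))).fst
  have h3 := HasFDerivAt.comp y (f := fun z => lg (x, z)) (h2 (lg (x, y))).hasFDerivAt h1
  have e : (fun c : V => (m.Z 1 (x, c)).1) ∘ (fun z => lg (x, z)) = id := funext (hh.ex x)
  rw [e] at h3
  have h4 := congrArg (fun L : V →L[ℝ] V => L (m.R y b)) (h3.unique (hasFDerivAt_id y))
  have h5 : fderiv ℝ lg (x, y) (ContinuousLinearMap.inr ℝ V V (m.R y b)) = 0 := h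
  simp only [ContinuousLinearMap.comp_apply, h5, map_zero, ContinuousLinearMap.id_apply] at h4
  rw [← hm.SR y b, ← h4, map_zero]

theorem det (hm : m.OK) (hj : m.Jac) (hh : m.Had lg) (x y : V) : 0 < (Mm m lg x y).det := by
  have hc : Continuous fun z => (Mm m lg x z).det := by
    refine ContinuousLinearMap.continuous_det.comp ?_
    exact ((hh.c1.continuous_fderiv (by norm_num)).comp (Continuous.prodMk_right x)).clm_comp
      (continuous_const.clm_comp hm.cR.continuous)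
  have hne : ∀ z, (Mm m lg x z).det ≠ 0 := fun z hz => by
    refine LinearMap.det_eq_zero_iff_ker_ne_bot.mp hz ?_
    exact LinearMap.ker_eq_bot'.mpr fun b hb => mm_inj hm hh x z b hb
  have h1 : Mm m lg x x = ContinuousLinearMap.id ℝ V := by
    ext1 b
    have h := rad hm hj hh (x, b) 0 0
    rw [hm.zero] at h
    exact h
  have h2 : (Mm m lg x x).det = 1 := by
    rw [h1]
    exact LinearMap.det_id
  by_contra hn
  obtain ⟨z, hz⟩ := intermediate_value_univ y x hc
    (show (0 : ℝ) ∈ Icc _ _ from ⟨not_lt.mp hn, by rw [h2]; norm_num⟩)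
  exact hne z hz

end RBs

open RBs in
theorem rowBs : SBs := by
  intro m lg hm hj hh
  refine ⟨geo hm hj hh, fun x y => ?_, fun x y h => ?_, fun x y y' h => ?_, cvx hm hj hh,
    fun u x r hu => ?_, det hm hj hh, gau hm hh, rad hm hj hh⟩
  · rw [hh.rev x y, norm_neg, hj.norm]
  · have h1 := hj.scale 1 0 x 0
    rw [zero_smul, zero_mul, hm.zero] at h1
    rw [← hh.ex x y, h, h1]
  · rw [← hh.ex x y, h, hh.ex]
  · have h1 := cvx hm hj hh u x 0 r hu
    have h2 := cvx hm hj hh u x 0 (-r) hu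
    rw [hm.zero] at h1 h2
    nlinarith

end Pool.Agent.MP_3ee8cb_gt.D3CT
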