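import Pool.Agent.MP_3ee8cb_gt.D3CT.Spec

/-! A sublevel set without positive local minima is path connected. -/

namespace Pool.Agent.MP_3ee8cb_gt.D3CT

open Set Filter Topology

theorem rowCon : SCon := by
  intro P _ _ _ F T hF hmin hj
  have hO : IsOpen {p | F p < T} := isOpen_lt hF continuous_const
  have key : ∀ p, F p < T → ∃ r, F r = 0 ∧ JoinedIn {p | F p < T} p r := by
    intro p hp
    have hp' : p ∈ pathComponentIn {p | F p < T} p := mem_pathComponentIn_self hp
    obtain ⟨r, hr, hm⟩ := (isClosed_closure (s := pathComponentIn {p | F p < T} p)).isCompact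
      |>.exists_isMinOn ⟨p, subset_closure hp'⟩ hF.continuousOn
    have hrT : F r < T := lt_of_le_of_lt (hm (subset_closure hp')) hp
    obtain ⟨s, h1, h2⟩ := mem_closure_iff.1 hr _ (hO.pathComponentIn r)
      (mem_pathComponentIn_self hrT)
    have hpr : JoinedIn {p | F p < T} p r := JoinedIn.trans h2 (JoinedIn.symm h1)
    have hr' : r ∈ pathComponentIn {p | F p < T} p := hpr
    refine ⟨r, hmin r hrT ?_, hpr⟩
    filter_upwards [(hO.pathComponentIn p).mem_nhds hr'] with q hq
    exact hm (subset_closure hq)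
  intro p q hp hq
  obtain ⟨r, r0, h1⟩ := key p hp
  obtain ⟨s, s0, h2⟩ := key q hq
  exact (h1.trans (hj r s r0 s0)).trans h2.symm

end Pool.Agent.MP_3ee8cb_gt.D3CT
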