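import Pool.Agent.MP_3ee8cb_gt.D3CT.Spec

/-! The local types at the events. -/

namespace Pool.Agent.MP_3ee8cb_gt.D3CT

open Set Filter Topology Pool.Agent.MP_3ee8cb_gt.D3
open D3MO (S2 Ch Rg Cr Sa)
open scoped RealInnerProductSpace

namespace REv

theorem cr_congr {f g : W → ℝ} {H : W →L[ℝ] W →L[ℝ] ℝ} (h : g =ᶠ[𝓝 0] f) (hf : Cr f H) :
    Cr g H := by
  obtain ⟨D, h1, h2, h3⟩ := hf
  refine ⟨D, ?_, h2, h3⟩
  filter_upwards [h1, h.eventuallyEq_nhds] with z hz he
  exact hz.congr_of_eventuallyEq he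

end REv

open REv in
theorem rowEv : SEv := by
  intro hs hd m lg σ T u n X B t p he
  obtain ⟨hp1, hy, hpos⟩ := he
  dsimp only at hp1 hy hpos
  have hp0 : p.1 ≠ 0 := by
    intro h
    rw [h, norm_zero] at hp1
    exact zero_ne_one hp1
  have hlg : lg ((σ p).1, zz m σ T p) = T • (σ p).2 := by
    have h := X.bs.geo (σ p) 0 T
    rwa [X.ok.zero, sub_zero] at h
  have hw : ‖(σ p).2‖ = 1 := by rw [X.front.norm _ hp0, hp1]
  have hin : 0 < ⟪lg ((m.Z t u).1, zz m σ T p), (m.Z t u).2⟫ := by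
    rw [← hy, hlg, real_inner_smul_left, real_inner_comm]
    exact mul_pos X.pos hpos
  have htn : t < n (zz m σ T p) := by
    by_contra hc
    rcases (not_lt.1 hc).lt_or_eq with h | h
    · exact absurd (X.ft.neg _ t h) hin.not_gt
    · have h0 := X.ft.zero (zz m σ T p)
      rw [h] at h0
      exact hin.ne' h0
  set f : S2 → ℝ := fun q => ‖lg ((σ p).1, zz m σ T q)‖ ^ 2 / 2 - T ^ 2 / 2 with hf
  have hf0 : f p = 0 := by
    simp only [hf, hlg, norm_smul, hw, mul_one, Real.norm_eq_abs, sq_abs, sub_self]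
  have hev : (fun q => gg m lg σ T u n t q) =ᶠ[𝓝 p] f := by
    have hc : ContinuousAt (fun q : S2 => n (zz m σ T q)) p :=
      (X.ft.cn.comp B.cz).continuousAt
    filter_upwards [hc.eventually (lt_mem_nhds htn)] with q hq
    simp only [gg, hf, min_eq_left hq.le, hy]
  have hg0 : gg m lg σ T u n t p = 0 := hev.self_of_nhds.trans hf0
  obtain ⟨ι, φ, G⟩ := X.gn p
  obtain ⟨H, hC, h1, h2⟩ := hs m lg σ T X.ok X.jac X.up X.had X.front X.good X.pos X.bs X.fr
    p ι φ G
  obtain ⟨d1, d2⟩ := hd S2 W f φ p H G.ch hC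
  refine ⟨hg0, fun s h => hg0 ▸ B.lt p t s h htn, fun s h => hg0 ▸ B.lt p s t h (h.trans htn),
    ?_, fun ha => ?_, fun ha => ?_⟩
  · have hdt : m.dt σ 0 p ≠ 0 := by
      intro h
      have := X.fr.sgn p hp1
      rw [h, mul_zero] at this
      exact lt_irrefl _ this
    exact mul_ne_zero (div_ne_zero (abs_ne_zero.2 hdt) hdt) (X.gen.reg t p hp1 hy).1
  · rcases h1 ha with h | h
    · refine Or.inl ?_
      filter_upwards [d1 h, nhdsWithin_le_nhds hev] with q hq he
      have he' : gg m lg σ T u n t q = f q := he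
      rw [he', ← hf0]
      exact hq
    · refine Or.inr ?_
      filter_upwards [d2 h, nhdsWithin_le_nhds hev] with q hq he
      have he' : gg m lg σ T u n t q = f q := he
      rw [he', ← hf0]
      exact hq
  · obtain ⟨v, v', h3, h4⟩ := h2 ha
    refine ⟨φ, G.ch, H, v, v', cr_congr ?_ hC, h3, h4⟩
    have hc : Tendsto φ (𝓝 0) (𝓝 p) := by
      have := G.ch.cont.self_of_nhds
      rwa [ContinuousAt, G.ch.zero] at this
    exact hc.eventually hev

end Pool.Agent.MP_3ee8cb_gt.D3CT
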