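import Pool.Agent.MP_3ee8cb_gt.D3CT.Spec

/-! A generic geodesic meets the front in finitely many points. -/

namespace Pool.Agent.MP_3ee8cb_gt.D3CT

open Set Filter Topology Pool.Agent.MP_3ee8cb_gt.D3
open scoped RealInnerProductSpace

noncomputable section

namespace RFin

theorem inj_of_det {L : V →L[ℝ] V} (h : L.det ≠ 0) {e : V} (he : L e = 0) : e = 0 := by
  by_contra hne
  apply h
  have hk : LinearMap.ker (L : V →ₗ[ℝ] V) ≠ ⊥ := by
    intro hb
    have : e ∈ LinearMap.ker (L : V →ₗ[ℝ] V) := he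
    rw [hb] at this
    exact hne ((Submodule.mem_bot ℝ).1 this)
  exact LinearMap.det_eq_zero_iff_ker_ne_bot.2 hk

theorem ne0 {a : V} (h : ‖a‖ = 1) : a ≠ 0 := by
  rintro rfl
  simp at h

/-- The points where the geodesic meets the front. -/
def KK (m : MF) (σ : V → V × V) (u : V × V) : Set (ℝ × V) :=
  {e | ‖e.2‖ = 1 ∧ (σ e.2).1 = (m.Z e.1 u).1}

theorem contZ {m : MF} (ok : m.OK) (u : V × V) : Continuous fun t => (m.Z t u).1 :=
  continuous_fst.comp (continuous_iff_continuousAt.2 fun t => (ok.ode u t).continuousAt)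

theorem compact {m lg σ T u n} (c : Cx m lg σ T u n) : IsCompact (KK m σ u) := by
  have hσ : ContinuousOn σ (Metric.sphere (0 : V) 1) :=
    c.front.c1.continuousOn.mono fun a ha => ne0 (by simpa using ha)
  have hb : ContinuousOn (fun a : V => lg (u.1, (σ a).1)) (Metric.sphere (0 : V) 1) :=
    c.had.c1.continuous.comp_continuousOn
      (continuousOn_const.prodMk (continuous_fst.comp_continuousOn hσ))
  obtain ⟨R, hR⟩ := (isCompact_sphere (0 : V) 1).exists_bound_of_continuousOn hb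
  have hcl : IsClosed (KK m σ u) := by
    have h0 : IsClosed {e : ℝ × V | ‖e.2‖ = 1} :=
      isClosed_eq (continuous_norm.comp continuous_snd) continuous_const
    have h1 : ContinuousOn (fun e : ℝ × V => (σ e.2).1) {e : ℝ × V | ‖e.2‖ = 1} :=
      continuous_fst.comp_continuousOn
        (hσ.comp continuous_snd.continuousOn fun e he => by simpa using he)
    have h2 : ContinuousOn (fun e : ℝ × V => (m.Z e.1 u).1) {e : ℝ × V | ‖e.2‖ = 1} :=
      ((contZ c.ok u).comp continuous_fst).continuousOn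
    exact h0.isClosed_eq h1 h2
  refine ((isCompact_Icc (a := -R) (b := R)).prod (isCompact_sphere (0 : V) 1)).of_isClosed_subset
    hcl ?_
  rintro ⟨t, a⟩ ⟨ha, he⟩
  have ha' : a ∈ Metric.sphere (0 : V) 1 := by simpa using ha
  refine ⟨?_, ha'⟩
  have h1 := hR a ha'
  have h2 := c.bs.geo u 0 t
  rw [c.ok.zero, sub_zero] at h2
  dsimp only at he
  rw [he, h2, norm_smul, c.un, mul_one, Real.norm_eq_abs] at h1
  exact abs_le.1 h1

theorem ev_ne {E F : Type} [NormedAddCommGroup E] [NormedSpace ℝ E] [FiniteDimensional ℝ E]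
    [NormedAddCommGroup F] [NormedSpace ℝ F] {f : E → F} {L : E →L[ℝ] F} {x : E}
    (hf : HasFDerivAt f L x) (hk : ∀ ξ, L ξ = 0 → ξ = 0) (c : F) :
    ∀ᶠ z in 𝓝[≠] x, f z ≠ c := by
  obtain ⟨K, -, hK⟩ := LinearMap.exists_antilipschitzWith (L : E →ₗ[ℝ] F)
    (LinearMap.ker_eq_bot'.2 hk)
  exact hf.eventually_ne ⟨K, hK⟩

theorem iso {E : Type} [NormedAddCommGroup E] [InnerProductSpace ℝ E] [FiniteDimensional ℝ E]
    {y : E → E} {γ : ℝ → E} {D : E →L[ℝ] E} {v a : E} {t : ℝ} (hy : HasFDerivAt y D a)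
    (hγ : HasDerivAt γ v t) (hk : ∀ (τ : ℝ) e, D e = τ • v → ⟪a, e⟫ = 0 → τ = 0 ∧ e = 0) :
    ∀ᶠ e in 𝓝[≠] (t, a), ¬ (‖e.2‖ = 1 ∧ y e.2 = γ e.1) := by
  have d1 : HasFDerivAt (fun e : ℝ × E => y e.2) (D.comp (ContinuousLinearMap.snd ℝ ℝ E)) (t, a) :=
    HasFDerivAt.comp (t, a) (f := Prod.snd) hy hasFDerivAt_snd
  have d2 : HasFDerivAt (fun e : ℝ × E => γ e.1)
      ((ContinuousLinearMap.toSpanSingleton ℝ v).comp (ContinuousLinearMap.fst ℝ ℝ E)) (t, a) :=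
    HasFDerivAt.comp (t, a) (f := Prod.fst) hγ.hasFDerivAt hasFDerivAt_fst
  have d3 := HasFDerivAt.inner ℝ (hasFDerivAt_snd (𝕜 := ℝ) (p := (t, a)))
    (hasFDerivAt_snd (𝕜 := ℝ) (p := (t, a)))
  have d4 := (d1.sub d2).prodMk d3
  have h5 := ev_ne d4 (fun ξ hξ => by
    have h1 : D ξ.2 - ξ.1 • v = 0 := congrArg Prod.fst hξ
    have h2 : ⟪a, ξ.2⟫ + ⟪ξ.2, a⟫ = (0 : ℝ) := congrArg Prod.snd hξ
    rw [real_inner_comm a ξ.2] at h2
    obtain ⟨e1, e2⟩ := hk ξ.1 ξ.2 (sub_eq_zero.1 h1) (by linarith)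
    exact Prod.ext e1 e2) ((0 : E), (1 : ℝ))
  filter_upwards [h5] with e hne hmem
  apply hne
  refine Prod.ext (sub_eq_zero.2 hmem.2) ?_
  change ⟪e.2, e.2⟫ = (1 : ℝ)
  rw [real_inner_self_eq_norm_sq, hmem.1, one_pow]

theorem isolated {m lg σ T u n} (c : Cx m lg σ T u n) (t : ℝ) (a : V) (ha : ‖a‖ = 1)
    (he : (σ a).1 = (m.Z t u).1) :
    ∀ᶠ e in 𝓝[≠] (t, a), ¬ (‖e.2‖ = 1 ∧ (σ e.2).1 = (m.Z e.1 u).1) := by
  have hd : HasFDerivAt σ (fderiv ℝ σ a) a :=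
    ((c.front.c1.contDiffAt (isOpen_ne.mem_nhds (ne0 ha))).differentiableAt
      (by simp)).hasFDerivAt
  have d2 : HasDerivAt (fun s => (m.Z s u).1) (m.R (m.Z t u).1 (m.Z t u).2) t :=
    (ContinuousLinearMap.fst ℝ V V).hasFDerivAt.comp_hasDerivAt t (c.ok.ode u t)
  refine iso (y := fun b => (σ b).1) (γ := fun s => (m.Z s u).1) hd.fst d2 ?_
  intro τ e h1 hae
  have hA : m.A σ a e = τ • (m.Z t u).2 := by
    have h3 : m.A σ a e = m.S (σ a).1 (fderiv ℝ σ a e).1 := rfl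
    have h4 : (fderiv ℝ σ a e).1 = τ • m.R (m.Z t u).1 (m.Z t u).2 := h1
    rw [h3, h4, map_smul, he, c.ok.SR]
  obtain ⟨r1, r2⟩ := c.gen.reg t a ha he
  have hl : ⟪(σ a).2, m.A σ a e⟫ = 0 := c.front.leg a e (ne0 ha)
  rw [hA, inner_smul_right, real_inner_comm] at hl
  have hτ : τ = 0 := (mul_eq_zero.1 hl).resolve_right r2
  have h4 : (m.A σ a + (innerSL ℝ a).smulRight (σ a).2) e = 0 := by
    have h5 : (m.A σ a + (innerSL ℝ a).smulRight (σ a).2) e =
        m.A σ a e + ⟪a, e⟫ • (σ a).2 := rfl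
    rw [h5, hA, hτ, hae, zero_smul, zero_smul, add_zero]
  exact ⟨hτ, inj_of_det r1 h4⟩

end RFin

theorem rowFin : SFin := by
  intro m lg σ T u n c
  have hf : (RFin.KK m σ u).Finite := by
    refine (RFin.compact c).finite (isDiscrete_iff_nhdsNE.2 fun e he => ?_)
    exact inf_principal_eq_bot.2 (RFin.isolated c e.1 e.2 he.1 he.2)
  exact hf.subset fun e he => ⟨he.1, he.2.1⟩

end

end Pool.Agent.MP_3ee8cb_gt.D3CT
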