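import Pool.Agent.MP_3ee8cb_gt.D3CT.Spec

/-! The foot of a point on a geodesic. -/

namespace Pool.Agent.MP_3ee8cb_gt.D3CT

open Set Filter Topology Pool.Agent.MP_3ee8cb_gt.D3
open scoped RealInnerProductSpace

namespace RFt

/-- The derivative of a minimum. -/
theorem envelope {f : ℝ × V → ℝ} {L : V → ℝ} {x : V} {D : V →L[ℝ] ℝ} (hf : ContDiff ℝ 1 f)
    (hL : Continuous L) (hm : ∀ x y, f (L x, x) ≤ f (L y, x))
    (hD : HasFDerivAt (fun y => f (L x, y)) D x) : HasFDerivAt (fun y => f (L y, y)) D x := by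
  have h1 := hf.hasStrictFDerivAt (x := (L x, x)) one_ne_zero
  have h2 : D = (fderiv ℝ f (L x, x)).comp (ContinuousLinearMap.inr ℝ ℝ V) :=
    hD.unique (h1.hasFDerivAt.comp x (hasFDerivAt_prodMk_right (L x) x))
  have h3 : Tendsto (fun y => ((L y, y), (L y, x))) (𝓝 x) (𝓝 ((L x, x), (L x, x))) :=
    Continuous.tendsto (f := fun y => ((L y, y), (L y, x))) (by fun_prop) x
  have h4 := (hasStrictFDerivAt_iff_isLittleO.1 h1).comp_tendsto h3
  rw [hasFDerivAt_iff_isLittleO, Asymptotics.isLittleO_iff] at hD ⊢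
  intro c hc
  filter_upwards [hD hc, Asymptotics.isLittleO_iff.1 h4 hc] with y a1 a2
  have e : D (y - x) = fderiv ℝ f (L x, x) ((L y, y) - (L y, x)) := by
    rw [h2, Prod.mk_sub_mk, sub_self]
    rfl
  simp only [Function.comp] at a2
  rw [← e, Prod.mk_sub_mk, sub_self, Prod.norm_mk, norm_zero, max_eq_right (norm_nonneg _)] at a2
  rw [Real.norm_eq_abs, abs_le] at a1 a2 ⊢
  constructor <;> linarith [hm x y, hm y x, a1.2, a2.1]

theorem foot {k : ℝ → V → ℝ} (h1 : ∀ x, Continuous fun l => k l x) (h2 : ∀ l, Continuous (k l))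
    (hk : ∀ x l l', l < l' → k l' x ≤ k l x - (l' - l)) : ∃ n : V → ℝ, Continuous n ∧
      (∀ x, k (n x) x = 0) ∧ (∀ x l, l < n x → 0 < k l x) ∧ ∀ x l, n x < l → k l x < 0 := by
  have h3 : ∀ x, ∃ l, k l x = 0 := fun x => by
    have p : 0 < |k 0 x| + 1 := by positivity
    refine intermediate_value_univ (|k 0 x| + 1) (-(|k 0 x| + 1)) (h1 x) ⟨?_, ?_⟩
    · linarith [hk x 0 _ p, le_abs_self (k 0 x)]
    · linarith [hk x _ 0 (neg_lt_zero.2 p), neg_abs_le (k 0 x)]
  choose n hn using h3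
  refine ⟨n, continuous_iff_continuousAt.2 fun x => ?_, hn,
    fun x l h => by linarith [hk x _ _ h, hn x], fun x l h => by linarith [hk x _ _ h, hn x]⟩
  refine tendsto_iff_dist_tendsto_zero.2 (squeeze_zero (fun _ => dist_nonneg)
    (g := fun y => |k (n x) y|) (fun y => ?_) ?_)
  · rw [Real.dist_eq, abs_le]
    rcases lt_trichotomy (n y) (n x) with h | h | h
    · constructor <;> linarith [hk y _ _ h, hn y, neg_abs_le (k (n x) y), abs_nonneg (k (n x) y)]
    · constructor <;> linarith [abs_nonneg (k (n x) y)]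
    · constructor <;> linarith [hk y _ _ h, hn y, le_abs_self (k (n x) y), abs_nonneg (k (n x) y)]
  · simpa [hn x] using (h2 (n x)).abs.tendsto x

end RFt

open RFt in
theorem rowFt : SFt := by
  intro m lg u ok _ had bs hu
  have cZ : ContDiff ℝ 1 fun l : ℝ => m.Z l u :=
    ok.cZ.comp (f := fun l : ℝ => (l, u)) (by fun_prop)
  have c0 := cZ.continuous
  have cl := had.c1.continuous
  obtain ⟨n, cn, n0, np, nn⟩ := foot (k := fun l x => ⟪lg ((m.Z l u).1, x), (m.Z l u).2⟫)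
    (fun x => by fun_prop) (fun l => by fun_prop) fun x l l' h => by
      have a1 := bs.cvx u x l l' hu
      have a2 := bs.cvx u x l' l hu
      refine le_of_mul_le_mul_left ?_ (sub_pos.2 h)
      linarith
  have anti : ∀ x l l', l < l' → l' ≤ n x →
      ‖lg ((m.Z l' u).1, x)‖ < ‖lg ((m.Z l u).1, x)‖ := fun x l l' h h' => by
    have a1 := bs.cvx u x l' l hu
    have a2 : 0 ≤ ⟪lg ((m.Z l' u).1, x), (m.Z l' u).2⟫ :=
      h'.eq_or_lt.elim (fun e => e ▸ (n0 x).ge) fun e => (np x l' e).le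
    refine lt_of_pow_lt_pow_left₀ 2 (norm_nonneg _) ?_
    nlinarith [mul_nonneg (sub_pos.2 h).le a2, mul_pos (sub_pos.2 h) (sub_pos.2 h)]
  have mono : ∀ x l l', n x ≤ l → l < l' →
      ‖lg ((m.Z l u).1, x)‖ < ‖lg ((m.Z l' u).1, x)‖ := fun x l l' h' h => by
    have a1 := bs.cvx u x l l' hu
    have a2 : ⟪lg ((m.Z l u).1, x), (m.Z l u).2⟫ ≤ 0 :=
      h'.eq_or_lt.elim (fun e => e ▸ (n0 x).le) fun e => (nn x l e).le
    refine lt_of_pow_lt_pow_left₀ 2 (norm_nonneg _) ?_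
    nlinarith [mul_nonneg (sub_pos.2 h).le (neg_nonneg.2 a2),
      mul_pos (sub_pos.2 h) (sub_pos.2 h)]
  refine ⟨n, cn, np, nn, n0, anti, mono, fun t x => ?_⟩
  have cF : ContDiff ℝ 1 fun q => ‖lg q‖ ^ 2 / 2 := (had.c1.norm_sq ℝ).div_const 2
  refine envelope (f := fun q => ‖lg ((m.Z q.1 u).1, q.2)‖ ^ 2 / 2) (L := fun x => min t (n x))
    (cF.comp (f := fun q : ℝ × V => ((m.Z q.1 u).1, q.2))
      ((cZ.comp contDiff_fst).fst.prodMk contDiff_snd)) (by fun_prop) (fun x y => ?_) ?_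
  · refine div_le_div_of_nonneg_right (pow_le_pow_left₀ (norm_nonneg _) ?_ 2) two_pos.le
    rcases lt_trichotomy (min t (n y)) (min t (n x)) with h | h | h
    · exact (anti x _ _ h (min_le_right _ _)).le
    · exact h ▸ le_rfl
    · refine (mono x _ _ (le_min (not_lt.1 fun e => ?_) le_rfl) h).le
      rw [min_eq_left e.le] at h
      exact absurd (min_le_left _ _) (not_le.2 h)
  · refine (((cF.differentiable one_ne_zero _).hasFDerivAt).comp x
      (hasFDerivAt_prodMk_right (m.Z (min t (n x)) u).1 x)).congr_fderiv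
      (ContinuousLinearMap.ext fun e => ?_)
    rw [ContinuousLinearMap.comp_apply, had.grad]
    simp

end Pool.Agent.MP_3ee8cb_gt.D3CT
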