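import Pool.Agent.MP_3ee8cb_gt.D3CT.Spec

/-! The Hessian of the squared distance from a point of the front. -/

namespace Pool.Agent.MP_3ee8cb_gt.D3CT

open Set Filter Topology Pool.Agent.MP_3ee8cb_gt.D3
open D3MO (S2 Ch Rg Cr Sa)
open scoped RealInnerProductSpace

namespace RHs

theorem prod0 {E F G H : Type} [NormedAddCommGroup E] [NormedSpace ℝ E] [NormedAddCommGroup F]
    [NormedSpace ℝ F] [NormedAddCommGroup G] [NormedSpace ℝ G] [NormedAddCommGroup H]
    [NormedSpace ℝ H] (β : F →L[ℝ] G →L[ℝ] H) (N : E → F) (N' : E →L[ℝ] F) (B : E → G) (x : E)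
    (hN : HasFDerivAt N N' x) (h0 : N x = 0) (hB : ContinuousAt B x) :
    HasFDerivAt (fun v => β (N v) (B v)) ((β.flip (B x)).comp N') x := by
  have h1 : HasFDerivAt (fun v => β.flip (B x) (N v)) ((β.flip (B x)).comp N') x :=
    (β.flip (B x)).hasFDerivAt.comp x hN
  have h2 : HasFDerivAt (fun v => β (N v) (B v - B x)) (0 : E →L[ℝ] H) x := by
    rw [hasFDerivAt_iff_isLittleO]
    have a1 : (fun v => N v) =O[𝓝 x] fun v => ‖v - x‖ := by
      have := hN.isBigO_sub
      simp only [h0, sub_zero] at this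
      exact this.norm_right
    have a2 : (fun v => B v - B x) =o[𝓝 x] fun _ => (1 : ℝ) := by
      rw [Asymptotics.isLittleO_one_iff]
      simpa using hB.tendsto.sub_const (B x)
    have a3 : (fun v => β (N v) (B v - B x)) =O[𝓝 x] fun v => ‖N v‖ * ‖B v - B x‖ :=
      Asymptotics.IsBigO.of_bound ‖β‖ (Eventually.of_forall fun v => by
        have := β.le_opNorm₂ (N v) (B v - B x)
        rw [Real.norm_of_nonneg (by positivity)]
        linarith [mul_assoc ‖β‖ ‖N v‖ ‖B v - B x‖])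
    have a4 := a3.trans_isLittleO (a1.norm_left.mul_isLittleO a2.norm_left)
    simp only [mul_one] at a4
    simpa using a4.of_norm_right
  have := h1.add h2
  rw [add_zero] at this
  refine this.congr_of_eventuallyEq (Eventually.of_forall fun v => ?_)
  simp

theorem gram (b : OrthonormalBasis (Fin 3) ℝ V) (P Q : V →L[ℝ] V) :
    P.det * Q.det = (Matrix.of fun i j => ⟪P (b i), Q (b j)⟫).det := by
  have e : (Matrix.of fun i j => ⟪P (b i), Q (b j)⟫) =
      (LinearMap.toMatrix b.toBasis b.toBasis (P : V →ₗ[ℝ] V)).transpose *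
        LinearMap.toMatrix b.toBasis b.toBasis (Q : V →ₗ[ℝ] V) := by
    ext i j
    rw [Matrix.mul_apply, Matrix.of_apply, ← b.sum_inner_mul_inner]
    refine Finset.sum_congr rfl fun k _ => ?_
    simp only [Matrix.transpose_apply, LinearMap.toMatrix_apply, OrthonormalBasis.coe_toBasis,
      OrthonormalBasis.coe_toBasis_repr_apply, OrthonormalBasis.repr_apply_apply,
      ContinuousLinearMap.coe_coe]
    rw [real_inner_comm]
  rw [e, Matrix.det_mul, Matrix.det_transpose, LinearMap.det_toMatrix, LinearMap.det_toMatrix]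

theorem quad (x y z : ℝ) (h : x * z - y * y < 0) :
    (∃ s t : ℝ, 0 < s * s * x + 2 * s * t * y + t * t * z) ∧
      ∃ s t : ℝ, s * s * x + 2 * s * t * y + t * t * z < 0 := by
  rcases lt_trichotomy x 0 with hx | hx | hx
  · exact ⟨⟨-y, x, by nlinarith [mul_pos_of_neg_of_neg hx h]⟩, ⟨1, 0, by linarith⟩⟩
  · subst hx
    have hy : 0 < y * y := by linarith
    exact ⟨⟨1 - z, 2 * y, by nlinarith⟩, ⟨-1 - z, 2 * y, by nlinarith⟩⟩
  · exact ⟨⟨1, 0, by linarith⟩, ⟨-y, x, by nlinarith [mul_pos hx (neg_pos.2 h)]⟩⟩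

theorem quad' (x y z s t : ℝ) (h : 0 < x * z - y * y) (hst : s ≠ 0 ∨ t ≠ 0) :
    0 < x * (s * s * x + 2 * s * t * y + t * t * z) := by
  have hx : x ≠ 0 := by
    rintro rfl
    nlinarith [mul_self_nonneg y]
  have e : x * (s * s * x + 2 * s * t * y + t * t * z) =
      (s * x + t * y) ^ 2 + (x * z - y * y) * t ^ 2 := by ring
  rw [e]
  by_cases ht : t = 0
  · subst ht
    have hs : s ≠ 0 := by simpa using hst
    have : 0 < (s * x) ^ 2 := by positivity
    simpa using this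
  · have : 0 < (x * z - y * y) * t ^ 2 := by positivity
    positivity

theorem la (P Q : V →L[ℝ] V) (a : V) (T : ℝ) (ι : W →L[ℝ] V) (H : W →L[ℝ] W →L[ℝ] ℝ)
    (ha : ‖a‖ = 1) (hT : 0 < T) (h1 : ⟪P a, Q a⟫ = T) (h2 : ∀ e, ⟪a, e⟫ = 0 → ⟪P a, Q e⟫ = 0)
    (inj : Function.Injective ι) (perp : ∀ z, ⟪a, ι z⟫ = 0)
    (onto : ∀ e, ⟪a, e⟫ = 0 → ∃ z, ι z = e) (hH : ∀ v v', H v v' = ⟪P (ι v), Q (ι v')⟫)
    (sy : ∀ v v', H v v' = H v' v) :
    (0 < P.det * Q.det → (∀ v, v ≠ 0 → 0 < H v v) ∨ ∀ v, v ≠ 0 → H v v < 0) ∧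
      (P.det * Q.det < 0 → ∃ v v', 0 < H v v ∧ H v' v' < 0) := by
  have ho : Orthonormal ℝ (({0} : Set (Fin 3)).domRestrict fun _ => a) :=
    ⟨fun _ => ha, fun i j hij => (hij (Subsingleton.elim _ _)).elim⟩
  obtain ⟨b, hb⟩ := ho.exists_orthonormalBasis_extension_of_card_eq (by simp)
  have b0 : b 0 = a := hb 0 rfl
  obtain ⟨v1, e1⟩ := onto (b 1) (by rw [← b0]; exact b.orthonormal.2 (by decide))
  obtain ⟨v2, e2⟩ := onto (b 2) (by rw [← b0]; exact b.orthonormal.2 (by decide))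
  have hd : P.det * Q.det = T * (H v1 v1 * H v2 v2 - H v1 v2 * H v1 v2) := by
    rw [gram b, Matrix.det_fin_three]
    simp only [Matrix.of_apply, b0, ← e1, ← e2, h1, h2 _ (perp _), ← hH, sy v2 v1]
    ring
  have hq : ∀ s t : ℝ, H (s • v1 + t • v2) (s • v1 + t • v2) =
      s * s * H v1 v1 + 2 * s * t * H v1 v2 + t * t * H v2 v2 := fun s t => by
    simp only [map_add, map_smul, _root_.add_apply, _root_.smul_apply,
      smul_eq_mul, sy v2 v1]
    ring
  have hv : ∀ v, ∃ s t : ℝ, v = s • v1 + t • v2 := fun v => by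
    refine ⟨⟪b 1, ι v⟫, ⟪b 2, ι v⟫, inj ?_⟩
    have := b.sum_repr' (ι v)
    rw [Fin.sum_univ_three, b0, perp, zero_smul, zero_add] at this
    rw [map_add, map_smul, map_smul, e1, e2, this]
  rw [hd]
  refine ⟨fun h => ?_, fun h => ?_⟩
  · have h' := (mul_pos_iff_of_pos_left hT).1 h
    have key : ∀ v, v ≠ 0 → 0 < H v1 v1 * H v v := fun v hv0 => by
      obtain ⟨s, t, rfl⟩ := hv v
      rw [hq]
      refine quad' _ _ _ s t h' ?_
      by_contra hn
      push Not at hn
      exact hv0 (by simp [hn.1, hn.2])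
    rcases lt_trichotomy (H v1 v1) 0 with hx | hx | hx
    · exact .inr fun v hv0 => by nlinarith [key v hv0]
    · exfalso
      rw [hx] at h'
      nlinarith [mul_self_nonneg (H v1 v2)]
    · exact .inl fun v hv0 => (mul_pos_iff_of_pos_left hx).1 (key v hv0)
  · have h' : H v1 v1 * H v2 v2 - H v1 v2 * H v1 v2 < 0 := by nlinarith
    obtain ⟨⟨s, t, p1⟩, ⟨s', t', p2⟩⟩ := quad _ _ _ h'
    exact ⟨_, _, by rwa [hq], by rwa [hq]⟩

end RHs

theorem rowHs : SHs := by
  intro m lg σ T ok jac _ had front _ hT bs fr p ι φ gn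
  set a : V := p.1 with hadef
  have ha : ‖a‖ = 1 := mem_sphere_zero_iff_norm.1 p.2
  have a0 : a ≠ 0 := fun h => by simp [h] at ha
  set q := (σ a).1 with hq
  have bne : ∀ v, a + ι v ≠ 0 := fun v h => by
    have := congrArg (fun x => ⟪a, x⟫) h
    simp only [inner_add_right, inner_zero_right, real_inner_self_eq_norm_sq, ha] at this
    rw [gn.perp v] at this
    norm_num at this
  have hb : ∀ v, HasFDerivAt (fun v => a + ι v) ι v := fun v => ι.hasFDerivAt.const_add a
  have op : ∀ b : V, b ≠ 0 → {b : V | b ≠ 0} ∈ 𝓝 b := fun b h => isOpen_ne.mem_nhds h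
  have zc : ∀ b, b ≠ 0 → ContDiffAt ℝ 1 (zh m σ T) b := fun b h => fr.c1.contDiffAt (op b h)
  have hz : ∀ v, HasFDerivAt (fun v => (zh m σ T (a + ι v)).1)
      ((ContinuousLinearMap.fst ℝ V V).comp ((fderiv ℝ (zh m σ T) (a + ι v)).comp ι)) v :=
    fun v => ((((zc _ (bne v)).differentiableAt one_ne_zero).hasFDerivAt).comp v (hb v)).fst
  have hy : HasFDerivAt (fun v => (σ (a + ι v)).1)
      ((ContinuousLinearMap.fst ℝ V V).comp ((fderiv ℝ σ a).comp ι)) 0 := by
    have h1 : HasFDerivAt σ (fderiv ℝ σ a) (a + ι 0) := by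
      rw [map_zero, add_zero]
      exact ((front.c1.contDiffAt (op a a0)).differentiableAt one_ne_zero).hasFDerivAt
    exact (h1.comp 0 (hb 0)).fst
  have za : zh m σ T a = m.Z T (σ a) := by simp [zh, ha]
  have ld : ∀ x, HasFDerivAt lg (fderiv ℝ lg x) x := fun x =>
    (had.c1.differentiable one_ne_zero x).hasFDerivAt
  set X : W → V := fun v => (zh m σ T (a + ι v)).1 with hX
  set N : W → V := fun v => lg (X v, q) - lg (X v, (σ (a + ι v)).1) with hN
  set B : W → W →L[ℝ] V := fun v => (m.S (X v)).comp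
    ((ContinuousLinearMap.fst ℝ V V).comp ((fderiv ℝ (zh m σ T) (a + ι v)).comp ι)) with hB
  have X0 : X 0 = zz m σ T a := by simp [hX, za, zz]
  have hl : ∀ v, lg (X v, (σ (a + ι v)).1) = (-T) • (zh m σ T (a + ι v)).2 := fun v => by
    have h1 := bs.geo (σ (‖a + ι v‖⁻¹ • (a + ι v))) T 0
    rw [ok.zero, zero_sub] at h1
    have h2 := front.hom ‖a + ι v‖⁻¹ (a + ι v) (inv_ne_zero (norm_ne_zero_iff.2 (bne v))) (bne v)
    rw [show (σ (a + ι v)).1 = (σ (‖a + ι v‖⁻¹ • (a + ι v))).1 by rw [h2]]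
    exact h1
  set β : V →L[ℝ] (W →L[ℝ] V) →L[ℝ] W →L[ℝ] ℝ :=
    (ContinuousLinearMap.compL ℝ W V ℝ).comp (-innerSL ℝ) with hβ
  have βa : ∀ k L e, β k L e = -⟪k, L e⟫ := fun k L e => rfl
  have hf : ∀ v, HasFDerivAt (fun z : W => ‖lg (q, zz m σ T (φ z))‖ ^ 2 / 2 - T ^ 2 / 2)
      (β (N v) (B v)) v := fun v => by
    have d1 : DifferentiableAt ℝ (fun x => ‖lg x‖ ^ 2 / 2) (q, X v) := by
      simp only [div_eq_mul_inv]
      exact ((ld _).differentiableAt.norm_sq ℝ).mul_const _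
    have d2 := (d1.hasFDerivAt.comp v ((hasFDerivAt_const q v).prodMk (hz v))).sub_const
      (T ^ 2 / 2)
    have e : (fun z : W => ‖lg (q, zz m σ T (φ z))‖ ^ 2 / 2 - T ^ 2 / 2) =
        fun z => ‖lg (q, X z)‖ ^ 2 / 2 - T ^ 2 / 2 := by
      funext z
      rw [gn.eq z]
      rfl
    rw [e]
    refine d2.congr_fderiv ?_
    ext1 e
    have pp := fr.perp (a + ι v) (ι e) (bne v)
    rw [βa, ContinuousLinearMap.comp_apply, had.grad]
    have e1 : ⟪lg (X v, (σ (a + ι v)).1), B v e⟫ = 0 := by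
      rw [hl, inner_smul_left]
      exact mul_eq_zero_of_right _ pp
    rw [show N v = lg (X v, q) - lg (X v, (σ (a + ι v)).1) from rfl, inner_sub_left, e1]
    simp [hB]
  set N' : W →L[ℝ] V := -((Mm m lg (zz m σ T a) q).comp ((m.A σ a).comp ι)) with hN'
  have hNd : HasFDerivAt N N' 0 := by
    have h1 := (ld (X 0, q)).comp 0 ((hz 0).prodMk (hasFDerivAt_const q 0))
    have h2 := (ld (X 0, (σ (a + ι 0)).1)).comp 0 ((hz 0).prodMk hy)
    refine (h1.sub h2).congr_fderiv ?_
    ext1 e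
    simp only [map_zero, add_zero, X0, hN', Mm, MF.A, MF.hor, _root_.sub_apply,
      ContinuousLinearMap.comp_apply, ContinuousLinearMap.prod_apply,
      _root_.neg_apply, ContinuousLinearMap.coe_fst', ContinuousLinearMap.inr_apply,
      ← hq, ok.RS, _root_.zero_apply]
    rw [← map_sub, ← map_neg]
    simp
  have hBc : ContinuousAt B 0 := by
    have c1 : ContinuousAt (fun v => m.S (X v)) 0 :=
      ok.cS.continuous.continuousAt.comp (hz 0).continuousAt
    have c2 : ContinuousAt (fun v => fderiv ℝ (zh m σ T) (a + ι v)) 0 :=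
      ContinuousAt.comp (f := fun v => a + ι v)
        ((zc _ (bne 0)).continuousAt_fderiv one_ne_zero) (hb 0).continuousAt
    exact c1.clm_comp (continuousAt_const.clm_comp (c2.clm_comp continuousAt_const))
  have N0 : N 0 = 0 := by simp [hN, hq]
  have hD := RHs.prod0 β N N' B 0 hNd N0 hBc
  refine ⟨_, ⟨fun v => β (N v) (B v), Eventually.of_forall hf, by simp [N0], hD⟩, ?_⟩
  set At : V →L[ℝ] V := m.A σ a + (innerSL ℝ a).smulRight (σ a).2 with hAt
  have Pa : ((Mm m lg (zz m σ T a) q).comp At) a = (m.Z T (σ a)).2 := by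
    have := bs.rad (σ a) T 0
    rw [ok.zero] at this
    simp only [hAt, ContinuousLinearMap.comp_apply, _root_.add_apply, fr.aa a ha,
      ContinuousLinearMap.smulRight_apply, innerSL_apply_apply, real_inner_self_eq_norm_sq, ha,
      zero_add, one_pow, one_smul]
    exact this
  have n1 : ‖(m.Z T (σ a)).2‖ = 1 := by rw [← za]; exact fr.nrm a a0
  have key := RHs.la ((Mm m lg (zz m σ T a) q).comp At) (Qm m σ T a) a T ι
    ((β.flip (B 0)).comp N') ha hT
    (by rw [Pa, fr.qa a ha, inner_smul_right, real_inner_self_eq_norm_sq, n1]; simp)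
    (fun e he => by rw [Pa]; exact fr.qp a e ha he) gn.inj gn.perp gn.onto
    (fun v v' => by
      have := fr.der a (ι v') ha (gn.perp v')
      have pv : ⟪a, ι v⟫ = 0 := gn.perp v
      simp only [ContinuousLinearMap.comp_apply, ContinuousLinearMap.flip_apply, βa, hB, X0,
        map_zero, add_zero, ContinuousLinearMap.coe_fst', this, hN', hAt,
        _root_.neg_apply, inner_neg_left, neg_neg, _root_.add_apply,
        ContinuousLinearMap.smulRight_apply, innerSL_apply_apply, pv, zero_smul])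
    (second_derivative_symmetric_of_eventually_of_real (Eventually.of_forall hf) hD)
  have dP : ((Mm m lg (zz m σ T a) q).comp At).det =
      (Mm m lg (zz m σ T a) q).det * m.dl σ a := LinearMap.det_comp _ _
  have dM := bs.det (zz m σ T a) q
  have sg := fr.sgn a ha
  have dt0 : m.dt σ 0 a ≠ 0 := fun h => by simp [h] at sg
  have e : ((Mm m lg (zz m σ T a) q).comp At).det * (Qm m σ T a).det =
      (Mm m lg (zz m σ T a) q).det * ((Qm m σ T a).det * m.dt σ 0 a) / |m.dt σ 0 a| *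
        m.ar σ a := by
    have := abs_ne_zero.2 dt0
    have h2 := sq_abs (m.dt σ 0 a)
    rw [dP, MF.ar]
    field_simp
  have cp : 0 < (Mm m lg (zz m σ T a) q).det * ((Qm m σ T a).det * m.dt σ 0 a) /
      |m.dt σ 0 a| := div_pos (mul_pos dM sg) (abs_pos.2 dt0)
  rw [e] at key
  exact ⟨fun h => key.1 (mul_pos cp h), fun h => key.2 (mul_neg_of_pos_of_neg cp h)⟩

end Pool.Agent.MP_3ee8cb_gt.D3CT
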