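import Pool.Agent.MP_3ee8cb_gt.D3CT.Spec

/-! Row Nm: the distance from the front to the geodesic has no positive local minimum. -/

namespace Pool.Agent.MP_3ee8cb_gt.D3CT

open Set Filter Topology Pool.Agent.MP_3ee8cb_gt.D3
open D3MO (S2)
open scoped RealInnerProductSpace

namespace RNm

variable {m : MF} {lg : V × V → V} {σ : V → V × V} {T : ℝ} {u : V × V} {n : V → ℝ}

lemma inj_of_det (A : V →L[ℝ] V) (h : A.det ≠ 0) (e : V) (he : A e = 0) : e = 0 := by
  by_contra h0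
  refine h ?_
  rw [ContinuousLinearMap.det, LinearMap.det_eq_zero_iff_ker_ne_bot, Submodule.ne_bot_iff]
  exact ⟨e, he, h0⟩

lemma zh_unit (a : V) (ha : ‖a‖ = 1) : zh m σ T a = m.Z T (σ a) := by
  rw [zh, ha, inv_one, one_smul]

lemma near (bg : Bg m lg σ T u n) (p : S2) (hmin : IsLocalMin (ds m lg σ T u n) p) :
    ∀ᶠ b in 𝓝 (p : V), b ≠ 0 ∧
      ∀ l, ds m lg σ T u n p ≤ ‖lg ((m.Z l u).1, (zh m σ T b).1)‖ := by
  have hp : ‖(p : V)‖ = 1 := norm_eq_of_mem_sphere p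
  have hp0 : (p : V) ≠ 0 := ne_zero_of_mem_unit_sphere p
  have h1 : ∀ᶠ q in 𝓝 p, ds m lg σ T u n p ≤ ds m lg σ T u n q := hmin
  rw [nhds_subtype_eq_comap, eventually_comap] at h1
  have hc : ContinuousAt (fun b : V => ‖b‖⁻¹ • b) (p : V) :=
    (continuous_norm.continuousAt.inv₀ (by rw [hp]; exact one_ne_zero)).smul continuousAt_id
  have ht : Tendsto (fun b : V => ‖b‖⁻¹ • b) (𝓝 (p : V)) (𝓝 (p : V)) := by
    have h2 := hc.tendsto
    rwa [hp, inv_one, one_smul] at h2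
  filter_upwards [ht.eventually h1, eventually_ne_nhds hp0] with b hb hb0
  refine ⟨hb0, fun l => ?_⟩
  have hq : ‖b‖⁻¹ • b ∈ Metric.sphere (0 : V) 1 := by
    rw [mem_sphere_zero_iff_norm, norm_smul, norm_inv, norm_norm,
      inv_mul_cancel₀ (norm_ne_zero_iff.2 hb0)]
  exact (hb ⟨_, hq⟩ rfl).trans (bg.dle ⟨_, hq⟩ l)

lemma zh_c1 (cx : Cx m lg σ T u n) (p : S2) : ContDiffAt ℝ 1 (zh m σ T) (p : V) :=
  cx.fr.c1.contDiffAt (eventually_ne_nhds (ne_zero_of_mem_unit_sphere p))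

/-- the first order condition -/
lemma first (cx : Cx m lg σ T u n) (bg : Bg m lg σ T u n) (p : S2)
    (hmin : IsLocalMin (ds m lg σ T u n) p) :
    ∃ r : ℝ, lg (zz m σ T p, (m.Z (n (zz m σ T p)) u).1) = r • (m.Z T (σ p)).2 := by
  have hp : ‖(p : V)‖ = 1 := norm_eq_of_mem_sphere p
  set y := (m.Z (n (zz m σ T p)) u).1 with hy
  have hx : (zh m σ T p).1 = zz m σ T p := by rw [zh_unit _ hp, zz]
  have hloc : IsLocalMin (fun b => ‖lg (y, (zh m σ T b).1)‖ ^ 2 / 2) (p : V) := by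
    filter_upwards [near bg p hmin] with b hb
    have h1 := hb.2 (n (zz m σ T p))
    have h2 : ds m lg σ T u n p = ‖lg (y, (zh m σ T p).1)‖ := by rw [hx]; rfl
    rw [h2] at h1
    have h3 := pow_le_pow_left₀ (norm_nonneg _) h1 2
    linarith
  have hd : Differentiable ℝ fun q => ‖lg q‖ ^ 2 / 2 :=
    ((cx.had.c1.norm_sq ℝ).div_const (2 : ℝ)).differentiable one_ne_zero
  have hz := ((zh_c1 cx p).differentiableAt one_ne_zero).hasFDerivAt
  have hin := (hasFDerivAt_const y (p : V)).prodMk hz.fst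
  have hG := HasFDerivAt.comp (p : V) (hd _).hasFDerivAt hin
  have h0 := hloc.hasFDerivAt_eq_zero hG
  refine cx.fr.span p _ hp fun e he => ?_
  have h1 := congrArg (fun L : V →L[ℝ] ℝ => L e) h0
  simp only [ContinuousLinearMap.comp_apply, cx.had.grad, ContinuousLinearMap.prod_apply,
    zero_apply, map_zero, inner_zero_right, Prod.swap_prod_mk, hx,
    ContinuousLinearMap.coe_fst', cx.fr.der p e hp he] at h1
  linarith

/-- the radial projection from the antipodal point is open -/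
lemma opn (cx : Cx m lg σ T u n) (p : S2) :
    map (fun b => ⟪(p : V), b⟫ • lg ((m.Z (-T) (σ p)).1, (zh m σ T b).1)) (𝓝 (p : V)) =
      𝓝 ((2 * T) • (m.Z (-T) (σ p)).2) := by
  have hp : ‖(p : V)‖ = 1 := norm_eq_of_mem_sphere p
  have hpp : ⟪(p : V), (p : V)⟫ = 1 := by rw [real_inner_self_eq_norm_sq, hp, one_pow]
  set o := (m.Z (-T) (σ p)).1 with ho
  have hx : (zh m σ T p).1 = zz m σ T p := by rw [zh_unit _ hp, zz]
  have hox : lg (o, zz m σ T p) = (2 * T) • (m.Z (-T) (σ p)).2 := by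
    rw [ho, zz, cx.bs.geo, sub_neg_eq_add, two_mul]
  have hxo : lg (zz m σ T p, o) = (-T - T) • (m.Z T (σ p)).2 := by rw [ho, zz, cx.bs.geo]
  have hz := (zh_c1 cx p).hasStrictFDerivAt one_ne_zero
  have hin := (hasStrictFDerivAt_const o (p : V)).prodMk hz.fst
  have hl := HasStrictFDerivAt.comp (p : V)
    (cx.had.c1.contDiffAt.hasStrictFDerivAt one_ne_zero) hin
  have hF := (innerSL ℝ (p : V)).hasStrictFDerivAt.smul hl (x := (p : V))
  have key := hF.map_nhds_eq_of_surj (by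
    rw [LinearMap.range_eq_top]
    refine LinearMap.injective_iff_surjective.1 ((injective_iff_map_eq_zero _).2 fun e he => ?_)
    set e' := e - ⟪(p : V), e⟫ • (p : V) with he'
    have hpe : ⟪(p : V), e'⟫ = 0 := by
      rw [he', inner_sub_right, inner_smul_right, hpp, mul_one, sub_self]
    have h1 : fderiv ℝ (zh m σ T) p e = fderiv ℝ (zh m σ T) p e' := by
      rw [he', map_sub, map_smul, cx.fr.der0 p hp, smul_zero, sub_zero]
    have h2 : (fderiv ℝ (zh m σ T) p e').1 = m.R (zz m σ T p) (Qm m σ T p e') := by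
      rw [← cx.fr.der p e' hp hpe, cx.ok.RS]
    have h3 : Mm m lg o (zz m σ T p) (Qm m σ T p e') +
        ⟪(p : V), e⟫ • lg (o, zz m σ T p) = 0 := by
      simpa [hpp, hp, h1, h2, hx, Mm] using he
    have h4 : ⟪lg (o, zz m σ T p), Mm m lg o (zz m σ T p) (Qm m σ T p e')⟫ = 0 := by
      rw [cx.bs.gau, hxo, inner_smul_left, cx.fr.qp p e' hp hpe, mul_zero, neg_zero]
    have h5 : ‖lg (o, zz m σ T p)‖ = 2 * T := by
      rw [hox, norm_smul, cx.jac.norm, cx.front.norm _ (ne_zero_of_mem_unit_sphere p), hp,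
        mul_one, Real.norm_of_nonneg (by linarith [cx.pos])]
    have h6 : ⟪(p : V), e⟫ = 0 := by
      have h7 := congrArg (fun w => ⟪lg (o, zz m σ T p), w⟫) h3
      simp only [inner_add_right, h4, inner_smul_right, real_inner_self_eq_norm_sq, h5,
        inner_zero_right, zero_add] at h7
      exact (mul_eq_zero.1 h7).resolve_right (pow_pos (by linarith [cx.pos]) 2).ne'
    rw [h6, zero_smul, add_zero] at h3
    have h8 := inj_of_det _ (left_ne_zero_of_mul (cx.fr.sgn p hp).ne') _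
      (inj_of_det _ (cx.bs.det _ _).ne' _ h3)
    rwa [he', h6, zero_smul, sub_zero] at h8)
  rw [← hox]
  simpa [hpp, hp, hx, Function.comp_def, Pi.smul_def'] using key

end RNm

theorem rowNm : SNm := by
  intro m lg σ T u n cx bg p hT hmin
  by_contra hne
  have hp : ‖(p : V)‖ = 1 := norm_eq_of_mem_sphere p
  have hp0 : (p : V) ≠ 0 := ne_zero_of_mem_unit_sphere p
  have hun : ∀ s, ‖(m.Z s (σ p)).2‖ = 1 := fun s => by
    rw [cx.jac.norm, cx.front.norm _ hp0, hp]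
  obtain ⟨r, hr⟩ := RNm.first cx bg p hmin
  set l := n (zz m σ T p) with hl
  have hρ : ds m lg σ T u n p = |r| := by
    rw [ds, cx.bs.sym, hr, norm_smul, hun, mul_one, Real.norm_eq_abs]
  have hr0 : r ≠ 0 := fun h => hne (by rw [hρ, h, abs_zero])
  have hg : (m.Z l u).1 = (m.Z (r + T) (σ p)).1 := by
    rw [← cx.had.ex (zz m σ T p) (m.Z l u).1, hr, cx.jac.scale, mul_one, cx.ok.add, zz]
  set o := (m.Z (-T) (σ p)).1 with ho
  have hzo : zz m σ T (-(p : V)) = o := by rw [zz, cx.fr.neg _ _ hp]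
  have hw : ⟪(m.Z (r + T) (σ p)).2, (m.Z l u).2⟫ = 0 := by
    have h1 := cx.ft.zero (zz m σ T p)
    rw [← hl, hg, zz, cx.bs.geo, inner_smul_left] at h1
    refine (mul_eq_zero.1 h1).resolve_left ?_
    simpa using hr0
  have hlo : lg ((m.Z l u).1, o) = (-T - (r + T)) • (m.Z (r + T) (σ p)).2 := by
    rw [hg, ho, cx.bs.geo]
  have hno : n o = l := by
    have h0 : ⟪lg ((m.Z l u).1, o), (m.Z l u).2⟫ = 0 := by
      rw [hlo, inner_smul_left, hw, mul_zero]
    rcases lt_trichotomy (n o) l with h | h | h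
    · exact absurd h0 (cx.ft.neg o l h).ne
    · exact h
    · exact absurd h0 (cx.ft.pos o l h).ne'
  rw [hρ] at hT
  have hrT := abs_lt.1 hT
  have hT0 := cx.pos
  have hn : ‖lg ((m.Z l u).1, o)‖ = 2 * T + r := by
    rw [hlo, norm_smul, hun, mul_one, Real.norm_eq_abs, abs_of_nonpos (by linarith)]
    ring
  have hrn : r < 0 := by
    have h1 := bg.d2 (-p)
    rw [ds, coe_neg_sphere, hzo, hno, hn] at h1
    linarith
  rw [abs_of_neg hrn] at hρ
  have hpos : 0 < 2 * T + r := by linarith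
  set κ := 2 * T / (2 * T + r) with hκ
  have hκ1 : 1 < κ := by rw [hκ, one_lt_div hpos]; linarith
  have hpp : ⟪(p : V), (p : V)⟫ = 1 := by rw [real_inner_self_eq_norm_sq, hp, one_pow]
  have hci : Tendsto (fun b : V => ⟪(p : V), b⟫) (𝓝 (p : V)) (𝓝 1) := by
    rw [← hpp]
    exact (continuous_const.inner continuous_id).tendsto _
  have hU := (RNm.near bg p hmin).and ((hci.eventually (lt_mem_nhds one_pos)).and
    (hci.eventually (gt_mem_nhds hκ1)))
  have hV := image_mem_map (m := fun b => ⟪(p : V), b⟫ • lg (o, (zh m σ T b).1)) hU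
  rw [ho, RNm.opn cx p, ← ho] at hV
  have hk : Tendsto (fun s => κ • lg (o, (m.Z s u).1)) (𝓝 l)
      (𝓝 ((2 * T) • (m.Z (-T) (σ p)).2)) := by
    have h1 : Continuous fun s => m.Z s u :=
      cx.ok.cZ.continuous.comp (continuous_id.prodMk continuous_const)
    have h2 : Continuous fun s => κ • lg (o, (m.Z s u).1) :=
      (cx.had.c1.continuous.comp (continuous_const.prodMk h1.fst)).const_smul κ
    have h3 := h2.tendsto l
    have h4 : κ * (r + T - -T) = 2 * T := by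
      rw [hκ, div_mul_eq_mul_div, div_eq_iff hpos.ne']
      ring
    rwa [hg, ho, cx.bs.geo, smul_smul, h4, ← ho] at h3
  obtain ⟨s, ⟨b, ⟨⟨hb0, hb⟩, hb1, hb2⟩, hbs⟩, hs⟩ :=
    (((hk.eventually hV).filter_mono nhdsWithin_le_nhds).and
      (self_mem_nhdsWithin (a := l) (s := Ioi l))).exists
  set ξ := lg (o, (m.Z s u).1) with hξ
  set μ := ⟪(p : V), b⟫⁻¹ * κ with hμ
  have hμ1 : 1 < μ := by rw [hμ, ← div_eq_inv_mul, one_lt_div hb1]; exact hb2
  have hy : lg (o, (zh m σ T b).1) = μ • ξ := by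
    have h1 : ⟪(p : V), b⟫ • lg (o, (zh m σ T b).1) = κ • ξ := hbs
    rw [hμ, mul_smul, ← h1, smul_smul, inv_mul_cancel₀ hb1.ne', one_smul]
  have h1 : (m.Z 1 (o, ξ)).1 = (m.Z s u).1 := cx.had.ex _ _
  have h2 : (m.Z μ (o, ξ)).1 = (zh m σ T b).1 := by
    rw [← cx.had.ex o (zh m σ T b).1, hy, cx.jac.scale, mul_one]
  have h3 : ‖lg ((m.Z s u).1, (zh m σ T b).1)‖ = (μ - 1) * ‖ξ‖ := by
    rw [← h1, ← h2, cx.bs.geo, norm_smul, cx.jac.norm, Real.norm_of_nonneg (by linarith)]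
  have h4 : μ * ‖ξ‖ ≤ 2 * T := by
    have h5 := cx.wid.diam (-(p : V)) (‖b‖⁻¹ • b) (by rw [norm_neg, hp]) (by
      rw [norm_smul, norm_inv, norm_norm, inv_mul_cancel₀ (norm_ne_zero_iff.2 hb0)])
    have h6 : zz m σ T (‖b‖⁻¹ • b) = (zh m σ T b).1 := rfl
    rwa [hzo, h6, hy, norm_smul, Real.norm_of_nonneg (by linarith)] at h5
  have h5 := cx.ft.mono o l s hno.le hs
  rw [hn, cx.bs.sym, ← hξ] at h5
  have h6 := hb s
  rw [hρ, h3] at h6
  linarith

end Pool.Agent.MP_3ee8cb_gt.D3CT
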