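import Pool.Agent.MP_3ee8cb_gt.D3CT.Spec

/-! The two points where the geodesic pierces the front at time `T` are joined. -/

namespace Pool.Agent.MP_3ee8cb_gt.D3CT

open Set Filter Topology Pool.Agent.MP_3ee8cb_gt.D3
open D3MO (S2 Ch Rg Cr Sa)
open scoped RealInnerProductSpace

noncomputable section

namespace RPc

theorem exPr (hg : SGn) (v : V) (hv : ‖v‖ = 1) :
    ∃ pr : V →L[ℝ] ℂ, ∀ k, pr k = 0 ↔ ∃ r : ℝ, k = r • v := by
  obtain ⟨ι, φ, g⟩ := hg ⟨v, by simpa using hv⟩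
  refine ⟨(Complex.orthonormalBasisOneI.repr.symm.toContinuousLinearEquiv :
    W →L[ℝ] ℂ).comp (ContinuousLinearMap.adjoint ι), fun k => ?_⟩
  have h0 : ((Complex.orthonormalBasisOneI.repr.symm.toContinuousLinearEquiv :
      W →L[ℝ] ℂ).comp (ContinuousLinearMap.adjoint ι)) k = 0 ↔
      ContinuousLinearMap.adjoint ι k = 0 :=
    map_eq_zero_iff _ Complex.orthonormalBasisOneI.repr.symm.injective
  rw [h0]
  have hvv : ⟪v, v⟫ = 1 := by rw [real_inner_self_eq_norm_sq, hv]; norm_num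
  constructor
  · intro h
    have h1 : ⟪v, k - ⟪v, k⟫ • v⟫ = 0 := by
      rw [inner_sub_right, real_inner_smul_right, hvv]; ring
    obtain ⟨z, hz⟩ := g.onto _ h1
    have h2 : ⟪k, k - ⟪v, k⟫ • v⟫ = 0 := by
      rw [← hz, ← ContinuousLinearMap.adjoint_inner_left, h, inner_zero_left]
    have h3 : ⟪k - ⟪v, k⟫ • v, k - ⟪v, k⟫ • v⟫ = 0 := by
      rw [inner_sub_left, h2, real_inner_smul_left, h1]; ring
    exact ⟨_, sub_eq_zero.1 (inner_self_eq_zero.1 h3)⟩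
  · rintro ⟨r, rfl⟩
    refine ext_inner_right ℝ fun z => ?_
    have h1 : ⟪v, ι z⟫ = 0 := g.perp z
    rw [ContinuousLinearMap.adjoint_inner_left, real_inner_smul_left, h1, inner_zero_left, mul_zero]

theorem injDet (A : V →L[ℝ] V) (h : A.det ≠ 0) : Function.Injective A := by
  have h1 : LinearMap.ker (A : V →ₗ[ℝ] V) = ⊥ := by
    by_contra h2
    exact h (LinearMap.det_eq_zero_iff_ker_ne_bot.2 h2)
  exact LinearMap.ker_eq_bot.1 h1

variable {m : MF} {lg : V × V → V} {σ : V → V × V} {T : ℝ} {u : V × V} {n : V → ℝ}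

theorem nS (p : S2) : ‖p.1‖ = 1 := by simp

theorem onG (cx : Cx m lg σ T u n) {pr : V →L[ℝ] ℂ} {t : ℝ}
    (hpr : ∀ k, pr k = 0 ↔ ∃ r : ℝ, k = r • (m.Z t u).2) (x : V) :
    pr (lg ((m.Z t u).1, x)) = 0 ↔ ∃ l, x = (m.Z l u).1 := by
  rw [hpr]
  constructor
  · rintro ⟨r, hr⟩
    refine ⟨t + r, cx.bs.inj (m.Z t u).1 _ _ ?_⟩
    rw [hr, cx.bs.geo, add_sub_cancel_left]
  · rintro ⟨l, rfl⟩
    exact ⟨_, cx.bs.geo u t l⟩

theorem ds0 (cx : Cx m lg σ T u n) (bg : Bg m lg σ T u n) (p : S2) :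
    ds m lg σ T u n p = 0 ↔ ∃ l, zz m σ T p = (m.Z l u).1 := by
  constructor
  · intro h
    exact ⟨_, (cx.bs.eq0 _ _ (norm_eq_zero.1 h)).symm⟩
  · rintro ⟨l, hl⟩
    have h := bg.dle p l
    rw [hl, cx.bs.geo, sub_self, zero_smul, norm_zero] at h
    exact le_antisymm h (norm_nonneg _)

theorem same (cx : Cx m lg σ T u n) {t : ℝ} {a : V} (ha : ‖a‖ = 1) (hy : (σ a).1 = (m.Z t u).1)
    {p q : S2} {l l' : ℝ} (hp : zz m σ T p = (m.Z l u).1) (hq : zz m σ T q = (m.Z l' u).1)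
    (h : 0 < (l - t) * (l' - t)) : p = q := by
  have h1 : l' - t ≠ 0 := by rintro h2; rw [h2, mul_zero] at h; exact lt_irrefl _ h
  have h2 : 0 < (l - t) / (l' - t) := div_pos_iff.2 (mul_pos_iff.1 h)
  refine Subtype.ext (cx.wid.rad p q a _ (nS p) (nS q) ha h2 ?_)
  rw [hy, hp, hq, cx.bs.geo, cx.bs.geo, smul_smul, div_mul_cancel₀ _ h1]

theorem neT (cx : Cx m lg σ T u n) {t : ℝ} {a : V} (ha : ‖a‖ = 1) (hy : (σ a).1 = (m.Z t u).1)
    {p : S2} {l : ℝ} (hp : zz m σ T p = (m.Z l u).1) : l - t ≠ 0 := by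
  intro h
  refine cx.wid.out p a (nS p) ha 1 ⟨zero_le_one, le_rfl⟩ ?_
  rw [cx.had.ex, hy, hp, sub_eq_zero.1 h]

theorem trans (cx : Cx m lg σ T u n) (bg : Bg m lg σ T u n) {q : S2} {l : ℝ}
    (hq : zz m σ T q = (m.Z l u).1) : ⟪(m.Z T (σ q)).2, (m.Z l u).2⟫ ≠ 0 := by
  intro h
  have h1 : zz m σ T (-q : S2) = (m.Z (-T) (σ q)).1 := by
    have h0 := congrArg Prod.fst (cx.fr.neg q T (nS q))
    exact h0
  have h2 : lg ((m.Z l u).1, zz m σ T (-q : S2)) = (-T - T) • (m.Z T (σ q)).2 := by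
    rw [h1, ← hq]; exact cx.bs.geo (σ q) T (-T)
  have h3 : ⟪lg ((m.Z l u).1, zz m σ T (-q : S2)), (m.Z l u).2⟫ = 0 := by
    rw [h2, real_inner_smul_left, h, mul_zero]
  have h4 : n (zz m σ T (-q : S2)) = l := by
    rcases lt_trichotomy (n (zz m σ T (-q : S2))) l with h5 | h5 | h5
    · exact absurd h3 (cx.ft.neg _ _ h5).ne
    · exact h5
    · exact absurd h3 (cx.ft.pos _ _ h5).ne'
  have hq0 : q.1 ≠ 0 := by intro h0; have := nS q; rw [h0, norm_zero] at this; norm_num at this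
  have h5 := bg.d2 (-q)
  unfold ds at h5
  rw [h4, h2, norm_smul, cx.jac.norm, cx.front.norm _ hq0, nS q, Real.norm_eq_abs,
    abs_of_neg (by linarith [cx.pos])] at h5
  linarith

theorem der (cx : Cx m lg σ T u n) (pr : V →L[ℝ] ℂ) (o : V) {q : S2} {ι : W →L[ℝ] V} {φ : W → S2}
    (g : Gn q ι φ) : HasFDerivAt (fun z => pr (lg (o, zz m σ T (φ z))))
      (pr.comp ((Mm m lg o (zz m σ T q)).comp ((Qm m σ T q).comp ι))) 0 := by
  have hq0 : q.1 ≠ 0 := by intro h0; have := nS q; rw [h0, norm_zero] at this; norm_num at this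
  have e1 : (zh m σ T q).1 = zz m σ T q := by
    unfold zh zz; rw [nS q, inv_one, one_smul]
  have h1 : HasFDerivAt (fun z : W => q.1 + ι z) ι 0 := ι.hasFDerivAt.const_add _
  have h2 : HasFDerivAt (zh m σ T) (fderiv ℝ (zh m σ T) q) (q.1 + ι 0) := by
    rw [map_zero, add_zero]
    exact ((cx.fr.c1.contDiffAt (isOpen_ne.mem_nhds hq0)).differentiableAt one_ne_zero).hasFDerivAt
  have h3 := (hasFDerivAt_const o (0 : W)).prodMk (h2.comp (0 : W) h1).fst
  have h4 : HasFDerivAt lg (fderiv ℝ lg (o, zz m σ T q))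
      (o, ((zh m σ T ∘ fun z : W => q.1 + ι z) 0).1) := by
    have e2 : ((zh m σ T ∘ fun z : W => q.1 + ι z) 0).1 = zz m σ T q := by
      rw [← e1]; simp
    rw [e2]
    exact (cx.had.c1.differentiable one_ne_zero _).hasFDerivAt
  have h5 := pr.hasFDerivAt.comp (0 : W) (h4.comp (0 : W) h3)
  have e3 : (fun z => pr (lg (o, zz m σ T (φ z)))) =
      pr ∘ lg ∘ fun z : W => (o, ((zh m σ T ∘ fun z : W => q.1 + ι z) z).1) := by
    funext z
    simp only [Function.comp, zz, zh, g.eq]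
  rw [e3]
  refine h5.congr_fderiv (ContinuousLinearMap.ext fun z => ?_)
  have e4 := cx.fr.der q (ι z) (nS q) (g.perp z)
  simp only [ContinuousLinearMap.comp_apply, Mm, ← e4, cx.ok.RS, ContinuousLinearMap.inr_apply,
    ContinuousLinearMap.prod_apply, zero_apply, ContinuousLinearMap.coe_fst']

theorem inj (cx : Cx m lg σ T u n) (bg : Bg m lg σ T u n) {pr : V →L[ℝ] ℂ} {t l : ℝ}
    (hpr : ∀ k, pr k = 0 ↔ ∃ r : ℝ, k = r • (m.Z t u).2) {q : S2} {ι : W →L[ℝ] V} {φ : W → S2}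
    (g : Gn q ι φ) (hq : zz m σ T q = (m.Z l u).1) : Function.Injective
      (pr.comp ((Mm m lg (m.Z t u).1 (zz m σ T q)).comp ((Qm m σ T q).comp ι))) := by
  refine (injective_iff_map_eq_zero _).2 fun z hz => ?_
  obtain ⟨r, hr⟩ := (hpr _).1 hz
  rw [hq, ← cx.bs.rad u t l, ← map_smul] at hr
  have h1 : Qm m σ T q (ι z) = r • (m.Z l u).2 := injDet _ (cx.bs.det _ _).ne' hr
  have h2 := cx.fr.qp q (ι z) (nS q) (g.perp z)
  rw [h1, real_inner_smul_right] at h2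
  have h3 : r = 0 := (mul_eq_zero.1 h2).resolve_right (trans cx bg hq)
  rw [h3, zero_smul, ← map_zero (Qm m σ T q)] at h1
  have h4 := injDet _ (left_ne_zero_of_mul (cx.fr.sgn q (nS q)).ne') h1
  exact g.inj (h4.trans (map_zero ι).symm)

theorem off (cx : Cx m lg σ T u n) (bg : Bg m lg σ T u n) {e p : S2}
    (he : T < ds m lg σ T u n e) (hp : T ≤ ds m lg σ T u n p) {s : ℝ} (hs : s ∈ Icc (0 : ℝ) 1)
    (l : ℝ) : (m.Z s (zz m σ T e, lg (zz m σ T e, zz m σ T p))).1 ≠ (m.Z l u).1 := by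
  intro h
  have h0 := cx.bs.geo (zz m σ T e, lg (zz m σ T e, zz m σ T p)) s 0
  have h1 := cx.bs.geo (zz m σ T e, lg (zz m σ T e, zz m σ T p)) s 1
  rw [cx.ok.zero, h] at h0
  rw [cx.had.ex, h] at h1
  have h2 := bg.dle e l
  have h3 := bg.dle p l
  rw [h0, norm_smul, cx.jac.norm, Real.norm_eq_abs, abs_of_nonpos (by linarith [hs.1])] at h2
  rw [h1, norm_smul, cx.jac.norm, Real.norm_eq_abs, abs_of_nonneg (by linarith [hs.2])] at h3
  have h4 := cx.wid.diam e p (nS e) (nS p)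
  dsimp only at h2 h3
  linarith

end RPc

open RPc in
theorem rowPc : SPc := by
  intro hTz hS m lg σ T u n cx bg p q hp hq
  have hpO : p ∈ {p | ds m lg σ T u n p < T} := by rw [mem_ofPred_eq, hp]; exact cx.pos
  have hqO : q ∈ {p | ds m lg σ T u n p < T} := by rw [mem_ofPred_eq, hq]; exact cx.pos
  by_cases hpq : p = q
  · subst hpq; exact JoinedIn.refl hpO
  obtain ⟨t, a, ha, hy⟩ := cx.mt
  obtain ⟨pr, hpr⟩ := exPr cx.gn (m.Z t u).2 ((cx.jac.norm t u).trans cx.un)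
  obtain ⟨ι, φ, g⟩ := cx.gn q
  obtain ⟨l, hl⟩ := (ds0 cx bg p).1 hp
  obtain ⟨l', hl'⟩ := (ds0 cx bg q).1 hq
  obtain ⟨e, he⟩ := bg.pos
  have he' : T < ds m lg σ T u n e := by
    have h := he (n (zz m σ T e))
    unfold gg at h
    rw [min_self] at h
    unfold ds
    exact lt_of_pow_lt_pow_left₀ 2 (norm_nonneg _) (by linarith)
  have := hS.2.1
  have cl := cx.had.c1.continuous
  refine hTz S2 W (by simp) hS.1 _ (fun p => pr (lg ((m.Z t u).1, zz m σ T p))) p q φ _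
    (fun x => pr (lg ((m.Z t u).1, (m.Z x.1 (zz m σ T e, lg (zz m σ T e, zz m σ T x.2))).1)))
    (pr (lg ((m.Z t u).1, zz m σ T e))) (isOpen_lt bg.cd continuous_const)
    (pr.continuous.comp (cl.comp (continuous_const.prodMk bg.cz))) hpO hqO ?_
    ((onG cx hpr _).2 ⟨l', hl'⟩) g.ch (der cx pr _ g) (inj cx bg hpr g hl') ?_ ?_ ?_ ?_
  · intro x hx
    obtain ⟨k, hk⟩ := (onG cx hpr _).1 hx
    by_contra hc
    push Not at hc
    have h1 : (l - t) * (l' - t) ≤ 0 := not_lt.1 fun h => hpq (same cx ha hy hl hl' h)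
    have h2 : (k - t) * (l - t) ≤ 0 := not_lt.1 fun h => hc.1 (same cx ha hy hk hl h)
    have h3 : (k - t) * (l' - t) ≤ 0 := not_lt.1 fun h => hc.2 (same cx ha hy hk hl' h)
    have h4 := mul_ne_zero (neT cx ha hy hl) (neT cx ha hy hl')
    have h5 := mul_self_pos.2 (neT cx ha hy hk)
    have h6 := mul_nonneg_of_nonpos_of_nonpos h2 h3
    have h7 := mul_neg_of_pos_of_neg h5 (lt_of_le_of_ne h1 h4)
    nlinarith
  · refine Continuous.continuousOn (pr.continuous.comp (cl.comp (continuous_const.prodMk ?_)))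
    exact (cx.ok.cZ.continuous.comp (continuous_fst.prodMk (continuous_const.prodMk
      (cl.comp (continuous_const.prodMk (bg.cz.comp continuous_snd)))))).fst
  · intro s hs x hx h
    obtain ⟨k, hk⟩ := (onG cx hpr _).1 h
    exact off cx bg he' (not_lt.1 hx) hs k hk
  · intro x _
    simp only [cx.ok.zero]
  · intro x _
    simp only [cx.had.ex]

end

end Pool.Agent.MP_3ee8cb_gt.D3CT
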