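import Pool.Agent.MP_3ee8cb_gt.D3CT.Spec

/-! The zeros of the distance family are regular, or events, or first births. -/

namespace Pool.Agent.MP_3ee8cb_gt.D3CT

open Set Filter Topology Pool.Agent.MP_3ee8cb_gt.D3
open D3MO (S2 Ch Rg Cr Sa)
open scoped RealInnerProductSpace

namespace RRg

variable {m : MF} {lg : V × V → V} {σ : V → V × V} {T : ℝ} {u : V × V} {n : V → ℝ}

lemma nrm (p : S2) : ‖(p : V)‖ = 1 := mem_sphere_zero_iff_norm.1 p.2

lemma ne0 {p : S2} {ι : W →L[ℝ] V} {φ : W → S2} (gn : Gn p ι φ) (z : W) : p.1 + ι z ≠ 0 := by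
  intro h
  have h1 : ⟪p.1, p.1 + ι z⟫ = 1 := by
    rw [inner_add_right, gn.perp, real_inner_self_eq_norm_sq, nrm]; norm_num
  rw [h, inner_zero_right] at h1
  exact zero_ne_one h1

lemma nw (cx : Cx m lg σ T u n) (p : S2) (s : ℝ) : ‖(m.Z s (σ p)).2‖ = 1 := by
  have hp : (p : V) ≠ 0 := norm_ne_zero_iff.1 (by rw [nrm]; exact one_ne_zero)
  rw [cx.jac.norm, cx.front.norm _ hp, nrm]

/-- A zero is regular or the ray is met in the normal direction. -/
lemma reg (cx : Cx m lg σ T u n) (t : ℝ) {p : S2} {ι : W →L[ℝ] V} {φ : W → S2} (gn : Gn p ι φ) :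
    Rg (fun z => gg m lg σ T u n t (φ z)) ∨ ∃ r : ℝ,
      lg (zz m σ T p, (m.Z (min t (n (zz m σ T p))) u).1) = r • (m.Z T (σ p)).2 := by
  have ho : IsOpen {b : V | b ≠ 0} := isOpen_ne
  have hb : ∀ z : W, HasFDerivAt (fun z : W => p.1 + ι z) ι z := fun z =>
    ι.hasFDerivAt.const_add p.1
  have hbc : Continuous fun z : W => p.1 + ι z := continuous_const.add ι.continuous
  have hz : ∀ z : W, HasFDerivAt (zh m σ T) (fderiv ℝ (zh m σ T) (p.1 + ι z)) (p.1 + ι z) :=
    fun z => ((cx.fr.c1.contDiffAt (ho.mem_nhds (ne0 gn z))).differentiableAt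
      one_ne_zero).hasFDerivAt
  have hX : ∀ z : W, HasFDerivAt (fun z : W => (zh m σ T (p.1 + ι z)).1)
      ((ContinuousLinearMap.fst ℝ V V).comp ((fderiv ℝ (zh m σ T) (p.1 + ι z)).comp ι)) z :=
    fun z => ((hz z).comp z (hb z)).fst
  have hXc : Continuous fun z : W => (zh m σ T (p.1 + ι z)).1 :=
    continuous_iff_continuousAt.2 fun z => (hX z).continuousAt
  have hFc : Continuous fun z : W => fderiv ℝ (zh m σ T) (p.1 + ι z) :=
    (cx.fr.c1.continuousOn_fderiv_of_isOpen ho le_rfl).comp_continuous hbc (ne0 gn)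
  have he : ∀ z, zz m σ T (φ z) = (zh m σ T (p.1 + ι z)).1 := fun z => by
    rw [gn.eq]; rfl
  have h0 : (zh m σ T (p.1 + ι 0)).1 = zz m σ T p := by rw [← he, gn.ch.zero]
  obtain ⟨X, hXe⟩ : ∃ X : W → V, X = fun z : W => (zh m σ T (p.1 + ι z)).1 := ⟨_, rfl⟩
  have hXz : ∀ z, (zh m σ T (p.1 + ι z)).1 = X z := fun z => by rw [hXe]
  rw [← hXe] at hX hXc
  simp only [hXz] at he h0
  have hk : Continuous fun z : W => lg (X z, (m.Z (min t (n (X z))) u).1) :=
    cx.had.c1.continuous.comp (hXc.prodMk ((cx.ok.cZ.continuous.comp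
      ((continuous_const.min (cx.ft.cn.comp hXc)).prodMk continuous_const)).fst))
  let D : W → W →L[ℝ] ℝ := fun z =>
    (-(innerSL ℝ (lg (X z, (m.Z (min t (n (X z))) u).1))).comp (m.S (X z))).comp
      ((ContinuousLinearMap.fst ℝ V V).comp ((fderiv ℝ (zh m σ T) (p.1 + ι z)).comp ι))
  have hD : ∀ z, HasFDerivAt (fun z => gg m lg σ T u n t (φ z)) (D z) z := fun z => by
    simp only [gg, he]
    exact ((cx.ft.env t (X z)).comp z (hX z)).sub_const _
  have hDc : Continuous D :=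
    (((innerSL ℝ).continuous.comp hk).clm_comp (cx.ok.cS.continuous.comp hXc)).neg.clm_comp
      (continuous_const.clm_comp (hFc.clm_comp continuous_const))
  by_cases h : D 0 = 0
  · right
    refine cx.fr.span p _ (nrm p) fun e hpe => ?_
    obtain ⟨z, rfl⟩ := gn.onto e hpe
    have h1 : D 0 z = 0 := by rw [h]; rfl
    have h2 : D 0 z = -⟪lg (X 0, (m.Z (min t (n (X 0))) u).1),
        m.S (X 0) (fderiv ℝ (zh m σ T) (p.1 + ι 0) (ι z)).1⟫ := rfl
    rw [h2, h0, map_zero, add_zero, cx.fr.der p _ (nrm p) hpe] at h1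
    exact neg_eq_zero.1 h1
  · exact Or.inl ⟨D, Eventually.of_forall hD, hDc.continuousAt, h⟩

lemma min_eq {t s : ℝ} (h : min t s ≠ s) : min t s = t ∧ t < s := by
  rcases lt_or_ge t s with h1 | h1
  · exact ⟨min_eq_left h1.le, h1⟩
  · exact absurd (min_eq_right h1) h

end RRg

open RRg in
theorem rowRg : SRg := by
  intro m lg σ T u n cx bg t p ι φ gn hg
  rcases reg cx t gn with h | ⟨r, hr⟩
  · exact Or.inl h
  right
  have hT := cx.pos
  obtain ⟨l, hl⟩ : ∃ l, l = min t (n (zz m σ T p)) := ⟨_, rfl⟩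
  rw [gg, ← hl, cx.bs.sym] at hg
  rw [← hl] at hr
  rw [hr, norm_smul, nw cx, mul_one, Real.norm_eq_abs, sq_abs] at hg
  have hrT : (r + T) * (r - T) = 0 := by linarith
  rcases mul_eq_zero.1 hrT with h | h
  · left
    have g1 := cx.bs.geo (σ p) T 0
    have g2 := cx.bs.geo (σ p) 0 T
    rw [cx.ok.zero] at g1 g2
    have e1 : (m.Z l u).1 = (σ p).1 := cx.bs.inj (zz m σ T p) _ _ (by
      rw [hr, show r = 0 - T by linarith]; exact g1.symm)
    have e2 : ⟪lg ((m.Z l u).1, zz m σ T p), (m.Z l u).2⟫ = T * ⟪(m.Z l u).2, (σ p).2⟫ := by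
      rw [e1, zz, g2, sub_zero, real_inner_smul_left, real_inner_comm]
    have hne : l ≠ n (zz m σ T p) := fun e => by
      have h3 := cx.ft.zero (zz m σ T p)
      rw [← e, e2] at h3
      exact mul_ne_zero hT.ne' (cx.gen.reg l p (nrm p) e1.symm).2 h3
    obtain ⟨e3, h4⟩ := min_eq (hl ▸ hne)
    obtain rfl : l = t := hl.trans e3
    have h5 := cx.ft.pos _ l h4
    rw [e2] at h5
    exact ⟨nrm p, e1.symm, (mul_pos_iff_of_pos_left hT).1 h5⟩
  · right
    have g1 := cx.bs.geo (σ p) T (2 * T)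
    have g2 := cx.bs.geo (σ p) (2 * T) T
    have g3 := cx.bs.geo (σ p) (2 * T) (-T)
    have e1 : (m.Z l u).1 = (m.Z (2 * T) (σ p)).1 := cx.bs.inj (zz m σ T p) _ _ (by
      rw [hr, show r = 2 * T - T by linarith]; exact g1.symm)
    have hne : l ≠ n (zz m σ T p) := fun e => by
      have h3 := cx.ft.zero (zz m σ T p)
      rw [← e, e1, zz, g2, real_inner_smul_left] at h3
      have h4 : ⟪(m.Z (2 * T) (σ p)).2, (m.Z l u).2⟫ = 0 :=
        (mul_eq_zero.1 h3).resolve_left (by linarith [hT] : T - 2 * T < 0).ne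
      have e2 : zz m σ T (-p : S2) = (m.Z (-T) (σ p)).1 := by
        rw [zz, coe_neg_sphere, cx.fr.neg p T (nrm p)]
      have e3 : lg ((m.Z l u).1, zz m σ T (-p : S2)) = (-T - 2 * T) • (m.Z (2 * T) (σ p)).2 := by
        rw [e1, e2, g3]
      have h5 : ⟪lg ((m.Z l u).1, zz m σ T (-p : S2)), (m.Z l u).2⟫ = 0 := by
        rw [e3, real_inner_smul_left, h4, mul_zero]
      have e4 : n (zz m σ T (-p : S2)) = l := by
        rcases lt_trichotomy l (n (zz m σ T (-p : S2))) with h6 | h6 | h6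
        · exact absurd h5 (cx.ft.pos _ l h6).ne'
        · exact h6.symm
        · exact absurd h5 (cx.ft.neg _ l h6).ne
      have h7 := bg.d2 (-p)
      rw [ds, e4, e3, norm_smul, nw cx, mul_one, Real.norm_eq_abs,
        abs_of_neg (by linarith)] at h7
      linarith
    obtain ⟨e3, h4⟩ := min_eq (hl ▸ hne)
    obtain rfl : l = t := hl.trans e3
    exact ⟨e1, h4⟩

end Pool.Agent.MP_3ee8cb_gt.D3CT
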