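import Pool.Agent.MP_3ee8cb_gt.D3CT.Spec

/-! Central projections exist at every point of the sphere. -/

namespace Pool.Agent.MP_3ee8cb_gt.D3CT

open Set Filter Topology Pool.Agent.MP_3ee8cb_gt.D3
open D3MO (S2 Ch)
open scoped RealInnerProductSpace

theorem rowGn : D3MO.SGno → SGn := by
  intro gno p
  have hp : ‖p.1‖ = 1 := by simp
  have p0 : p.1 ≠ 0 := fun e => by simp [e] at hp
  have : Fact (Module.finrank ℝ V = 2 + 1) := ⟨by simp⟩
  let b := (OrthonormalBasis.fromOrthogonalSpanSingleton (𝕜 := ℝ) 2 p0).repr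
  let ι : W →L[ℝ] V := (ℝ ∙ p.1)ᗮ.subtypeL.comp b.symm.toContinuousLinearEquiv.toContinuousLinearMap
  have hι : ∀ z, ι z = (b.symm z : V) := fun _ => rfl
  have inj : Function.Injective ι := fun z z' e =>
    b.symm.injective (Subtype.ext (by rw [← hι, ← hι, e]))
  have perp : ∀ z, ⟪p.1, ι z⟫ = 0 := fun z => by
    rw [hι]
    exact Submodule.mem_orthogonal_singleton_iff_inner_right.1 (b.symm z).2
  have ne : ∀ z, p.1 + ι z ≠ 0 := fun z e => by
    have h : ⟪p.1, p.1 + ι z⟫ = 1 := by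
      rw [inner_add_right, perp, real_inner_self_eq_norm_sq, hp]
      norm_num
    rw [e, inner_zero_right] at h
    exact zero_ne_one h
  let φ : W → S2 := fun z => ⟨‖p.1 + ι z‖⁻¹ • (p.1 + ι z), by
    rw [mem_sphere_zero_iff_norm, norm_smul, norm_inv, norm_norm]
    exact inv_mul_cancel₀ (norm_ne_zero_iff.2 (ne z))⟩
  refine ⟨ι, φ, gno W (by simp) p ι φ inj perp fun _ => rfl, inj, perp, fun e he => ?_,
    fun _ => rfl⟩
  exact ⟨b ⟨e, Submodule.mem_orthogonal_singleton_iff_inner_right.2 he⟩, by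
    rw [hι, b.symm_apply_apply]⟩

end Pool.Agent.MP_3ee8cb_gt.D3CT
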