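import Pool.Agent.MP_3ee8cb_gt.D3AR.Spec
import Pool.Agent.MP_3ee8cb_gt.D3MO.Fin
import Pool.Agent.MP_3ee8cb_gt.D3MO.Def
import Pool.Agent.MP_3ee8cb_gt.D3MO.Sph
import Pool.Agent.MP_3ee8cb_gt.D3MO.Tz
import Pool.Agent.MP_3ee8cb_gt.D3CT.Asm
import Pool.Agent.MP_3ee8cb_gt.D3CT.RB1
import Pool.Agent.MP_3ee8cb_gt.D3CT.RBg
import Pool.Agent.MP_3ee8cb_gt.D3CT.RBs
import Pool.Agent.MP_3ee8cb_gt.D3CT.RCon
import Pool.Agent.MP_3ee8cb_gt.D3CT.REv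
import Pool.Agent.MP_3ee8cb_gt.D3CT.RFin
import Pool.Agent.MP_3ee8cb_gt.D3CT.RFr
import Pool.Agent.MP_3ee8cb_gt.D3CT.RFt
import Pool.Agent.MP_3ee8cb_gt.D3CT.RGn
import Pool.Agent.MP_3ee8cb_gt.D3CT.RHs
import Pool.Agent.MP_3ee8cb_gt.D3CT.RNm
import Pool.Agent.MP_3ee8cb_gt.D3CT.RPc
import Pool.Agent.MP_3ee8cb_gt.D3CT.RRg

/-! The signed count on a generic geodesic. -/

namespace Pool.Agent.MP_3ee8cb_gt.D3CT

theorem scnt : SCNT :=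
  asm D3MO.sMorse D3MO.sDef D3MO.sTz D3MO.sSph rowBs rowFt rowFr (rowGn D3MO.sGno) rowHs rowBg
    rowRg rowB1 rowEv rowNm rowPc rowCon rowFin

theorem scntAR : D3AR.SCNT := fun m lg σ T ok jac up had front good pos wid u un gen =>
  scnt m lg σ T ok jac up had front good pos wid u un ⟨gen.1, gen.2⟩

end Pool.Agent.MP_3ee8cb_gt.D3CT
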