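import Pool.Agent.MP_3ee8cb_gt.D3.Spec
import Pool.Agent.MP_3ee8cb_gt.D3MO.Spec

/-! The signed count of the points of a front on a generic geodesic: statements. -/

namespace Pool.Agent.MP_3ee8cb_gt.D3CT

open Set Filter Topology Pool.Agent.MP_3ee8cb_gt.D3
open D3MO (S2 Ch Rg Cr Sa)
open scoped RealInnerProductSpace

noncomputable section

/-- The geodesic of `u` passes at time `e.1` through the point `e.2` of the front, positively. -/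
def Ev (m : MF) (σ : V → V × V) (u : V × V) : Set (ℝ × V) :=
  {e | ‖e.2‖ = 1 ∧ (σ e.2).1 = (m.Z e.1 u).1 ∧ 0 < ⟪(m.Z e.1 u).2, (σ e.2).2⟫}

/-- The geodesic of `u` is generic for the front. -/
structure Gen (m : MF) (σ : V → V × V) (u : V × V) : Prop where
  reg : ∀ t a, ‖a‖ = 1 → (σ a).1 = (m.Z t u).1 →
    m.dl σ a ≠ 0 ∧ ⟪(m.Z t u).2, (σ a).2⟫ ≠ 0
  one : ∀ e ∈ Ev m σ u, ∀ e' ∈ Ev m σ u, e.1 = e'.1 → e = e'

/-- The result of the block. -/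
def SCNT : Prop := OnF fun m lg σ T => Wid m lg σ T → ∀ u : V × V, ‖u.2‖ = 1 → Gen m σ u →
  (Ev m σ u).Finite ∧
    {e ∈ Ev m σ u | 0 < m.ar σ e.2}.ncard ≤ {e ∈ Ev m σ u | m.ar σ e.2 < 0}.ncard

/-! ### Hadamard spaces -/

/-- The derivative of `lg (x, ·)` at `y` in the frame. -/
def Mm (m : MF) (lg : V × V → V) (x y : V) : V →L[ℝ] V :=
  (fderiv ℝ lg (x, y)).comp ((ContinuousLinearMap.inr ℝ V V).comp (m.R y))

structure Bs (m : MF) (lg : V × V → V) : Prop where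
  geo : ∀ (u : V × V) s t, lg ((m.Z s u).1, (m.Z t u).1) = (t - s) • (m.Z s u).2
  sym : ∀ x y, ‖lg (x, y)‖ = ‖lg (y, x)‖
  eq0 : ∀ x y, lg (x, y) = 0 → x = y
  inj : ∀ x y y', lg (x, y) = lg (x, y') → y = y'
  cvx : ∀ (u : V × V) x l l', ‖u.2‖ = 1 → ‖lg ((m.Z l u).1, x)‖ ^ 2 -
    2 * (l' - l) * ⟪lg ((m.Z l u).1, x), (m.Z l u).2⟫ + (l' - l) ^ 2 ≤ ‖lg ((m.Z l' u).1, x)‖ ^ 2
  mid : ∀ (u : V × V) x r, ‖u.2‖ = 1 → 2 * ‖lg (u.1, x)‖ ^ 2 + 2 * r ^ 2 ≤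
    ‖lg ((m.Z r u).1, x)‖ ^ 2 + ‖lg ((m.Z (-r) u).1, x)‖ ^ 2
  det : ∀ x y, 0 < (Mm m lg x y).det
  gau : ∀ x y b, ⟪lg (x, y), Mm m lg x y b⟫ = -⟪lg (y, x), b⟫
  rad : ∀ (u : V × V) s t, Mm m lg (m.Z s u).1 (m.Z t u).1 (m.Z t u).2 = (m.Z s u).2

def SBs : Prop := ∀ (m : MF) (lg : V × V → V), m.OK → m.Jac → m.Had lg → Bs m lg

/-- `n x` is the parameter of the point of the geodesic of `u` that is closest to `x`. -/
structure Ft (m : MF) (lg : V × V → V) (u : V × V) (n : V → ℝ) : Prop where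
  cn : Continuous n
  pos : ∀ x l, l < n x → 0 < ⟪lg ((m.Z l u).1, x), (m.Z l u).2⟫
  neg : ∀ x l, n x < l → ⟪lg ((m.Z l u).1, x), (m.Z l u).2⟫ < 0
  zero : ∀ x, ⟪lg ((m.Z (n x) u).1, x), (m.Z (n x) u).2⟫ = 0
  anti : ∀ x l l', l < l' → l' ≤ n x → ‖lg ((m.Z l' u).1, x)‖ < ‖lg ((m.Z l u).1, x)‖
  mono : ∀ x l l', n x ≤ l → l < l' → ‖lg ((m.Z l u).1, x)‖ < ‖lg ((m.Z l' u).1, x)‖
  env : ∀ t x, HasFDerivAt (fun x => ‖lg ((m.Z (min t (n x)) u).1, x)‖ ^ 2 / 2)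
    (-(innerSL ℝ (lg (x, (m.Z (min t (n x)) u).1))).comp (m.S x)) x

def SFt : Prop := ∀ (m : MF) (lg : V × V → V) (u : V × V), m.OK → m.Jac → m.Had lg → Bs m lg →
  ‖u.2‖ = 1 → ∃ n, Ft m lg u n

/-! ### Fronts -/

/-- The front at time `T`, extended homogeneously of degree zero. -/
def zh (m : MF) (σ : V → V × V) (T : ℝ) (b : V) : V × V := m.Z T (σ (‖b‖⁻¹ • b))

/-- The value at time `T` of the Jacobi fields of the front. -/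
def Qm (m : MF) (σ : V → V × V) (T : ℝ) (a : V) : V →L[ℝ] V :=
  (m.hor (m.Z T (σ a))).comp ((fderiv ℝ (m.Z T) (σ a)).comp (fderiv ℝ σ a))

structure Fr (m : MF) (σ : V → V × V) (T : ℝ) : Prop where
  c1 : ContDiffOn ℝ 1 (zh m σ T) {b | b ≠ 0}
  nrm : ∀ b, b ≠ 0 → ‖(zh m σ T b).2‖ = 1
  perp : ∀ b e, b ≠ 0 →
    ⟪(zh m σ T b).2, m.S (zh m σ T b).1 (fderiv ℝ (zh m σ T) b e).1⟫ = 0
  der : ∀ a e, ‖a‖ = 1 → ⟪a, e⟫ = 0 →
    m.S (zz m σ T a) (fderiv ℝ (zh m σ T) a e).1 = Qm m σ T a e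
  der0 : ∀ a, ‖a‖ = 1 → fderiv ℝ (zh m σ T) a a = 0
  qa : ∀ a, ‖a‖ = 1 → Qm m σ T a a = T • (m.Z T (σ a)).2
  qp : ∀ a e, ‖a‖ = 1 → ⟪a, e⟫ = 0 → ⟪(m.Z T (σ a)).2, Qm m σ T a e⟫ = 0
  sgn : ∀ a, ‖a‖ = 1 → 0 < (Qm m σ T a).det * m.dt σ 0 a
  span : ∀ a k, ‖a‖ = 1 → (∀ e, ⟪a, e⟫ = 0 → ⟪k, Qm m σ T a e⟫ = 0) →
    ∃ r : ℝ, k = r • (m.Z T (σ a)).2
  neg : ∀ a t, ‖a‖ = 1 → m.Z t (σ (-a)) = ((m.Z (-t) (σ a)).1, -(m.Z (-t) (σ a)).2)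
  aa : ∀ a, ‖a‖ = 1 → m.A σ a a = 0

def SFr : Prop := OnF fun m _ σ T => Fr m σ T

abbrev W := EuclideanSpace ℝ (Fin 2)

/-- Central projection from the tangent plane at `p`. -/
structure Gn (p : S2) (ι : W →L[ℝ] V) (φ : W → S2) : Prop where
  ch : Ch φ p
  inj : Function.Injective ι
  perp : ∀ z, ⟪p.1, ι z⟫ = 0
  onto : ∀ e, ⟪p.1, e⟫ = 0 → ∃ z, ι z = e
  eq : ∀ z, (φ z : V) = ‖p.1 + ι z‖⁻¹ • (p.1 + ι z)

def SGn : Prop := ∀ p : S2, ∃ ι φ, Gn p ι φ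

/-- The Hessian of the squared distance from a point of the front. -/
def SHs : Prop := OnF fun m lg σ T => Bs m lg → Fr m σ T → ∀ (p : S2) ι φ, Gn p ι φ →
  ∃ H, Cr (fun z : W => ‖lg ((σ p).1, zz m σ T (φ z))‖ ^ 2 / 2 - T ^ 2 / 2) H ∧
    (0 < m.ar σ p → (∀ v, v ≠ 0 → 0 < H v v) ∨ ∀ v, v ≠ 0 → H v v < 0) ∧
    (m.ar σ p < 0 → ∃ v v', 0 < H v v ∧ H v' v' < 0)

/-! ### One geodesic that meets the front -/

structure Cx (m : MF) (lg : V × V → V) (σ : V → V × V) (T : ℝ) (u : V × V) (n : V → ℝ) :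
    Prop where
  ok : m.OK
  jac : m.Jac
  up : m.Up 0
  had : m.Had lg
  front : m.Front σ
  good : m.Good σ T
  pos : 0 < T
  wid : Wid m lg σ T
  bs : Bs m lg
  fr : Fr m σ T
  un : ‖u.2‖ = 1
  gen : Gen m σ u
  ft : Ft m lg u n
  gn : SGn
  mt : ∃ t a, ‖a‖ = 1 ∧ (σ a).1 = (m.Z t u).1

def OnX (P : MF → (V × V → V) → (V → V × V) → ℝ → V × V → (V → ℝ) → Prop) : Prop :=
  ∀ m lg σ T u n, Cx m lg σ T u n → P m lg σ T u n

/-- Half the squared distance from the front at time `T` to the ray up to time `t`, shifted. -/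
def gg (m : MF) (lg : V × V → V) (σ : V → V × V) (T : ℝ) (u : V × V) (n : V → ℝ) (t : ℝ)
    (p : S2) : ℝ :=
  ‖lg ((m.Z (min t (n (zz m σ T p))) u).1, zz m σ T p)‖ ^ 2 / 2 - T ^ 2 / 2

/-- The distance from the front at time `T` to the geodesic. -/
def ds (m : MF) (lg : V × V → V) (σ : V → V × V) (T : ℝ) (u : V × V) (n : V → ℝ) (p : S2) : ℝ :=
  ‖lg ((m.Z (n (zz m σ T p)) u).1, zz m σ T p)‖

structure Bg (m : MF) (lg : V × V → V) (σ : V → V × V) (T : ℝ) (u : V × V) (n : V → ℝ) :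
    Prop where
  cz : Continuous fun p : S2 => zz m σ T p
  cg : Continuous fun q : ℝ × S2 => gg m lg σ T u n q.1 q.2
  cd : Continuous (ds m lg σ T u n)
  anti : ∀ p, Antitone fun t => gg m lg σ T u n t p
  lt : ∀ (p : S2) s t, s < t → s < n (zz m σ T p) → gg m lg σ T u n t p < gg m lg σ T u n s p
  le : ∀ (p : S2) l t, l ≤ t →
    gg m lg σ T u n t p ≤ ‖lg ((m.Z l u).1, zz m σ T p)‖ ^ 2 / 2 - T ^ 2 / 2
  dle : ∀ (p : S2) l, ds m lg σ T u n p ≤ ‖lg ((m.Z l u).1, zz m σ T p)‖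
  iff : ∀ p, (∃ t, gg m lg σ T u n t p < 0) ↔ ds m lg σ T u n p < T
  ini : ∃ t, ∀ p, 0 < gg m lg σ T u n t p
  near : ∀ a a₀, ‖a‖ = 1 → ‖a₀‖ = 1 → ‖lg ((σ a₀).1, zz m σ T a)‖ < 2 * T
  d2 : ∀ p, ds m lg σ T u n p < 2 * T
  pos : ∃ e, ∀ t, 0 < gg m lg σ T u n t e

def SBg : Prop := OnX Bg

/-- The first birth. -/
def T2 (m : MF) (σ : V → V × V) (T : ℝ) (u : V × V) (n : V → ℝ) (t : ℝ) (p : S2) : Prop :=
  (m.Z t u).1 = (m.Z (2 * T) (σ p)).1 ∧ t < n (zz m σ T p)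

/-- The zeros are regular, or events, or first births. -/
def Tri (m : MF) (lg : V × V → V) (σ : V → V × V) (T : ℝ) (u : V × V) (n : V → ℝ) : Prop :=
  ∀ t (p : S2) ι φ, Gn p ι φ → gg m lg σ T u n t p = 0 →
    Rg (fun z => gg m lg σ T u n t (φ z)) ∨ (t, p.1) ∈ Ev m σ u ∨ T2 m σ T u n t p

def SRg : Prop := OnX fun m lg σ T u n => Bg m lg σ T u n → Tri m lg σ T u n

def SB1 : Prop := OnX fun m lg σ T u n => Bg m lg σ T u n → Tri m lg σ T u n →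
  ∃ (t : ℝ) (p : S2), (t, p.1) ∉ Ev m σ u ∧ gg m lg σ T u n t p = 0 ∧
    (∀ q, q ≠ p → 0 < gg m lg σ T u n t q) ∧ (∀ s, t < s → gg m lg σ T u n s p < 0) ∧
    ∀ t' p', T2 m σ T u n t' p' → t' = t ∧ p' = p

/-- The local types at the events. -/
def SEv : Prop := SHs → D3MO.SDef → OnX fun m lg σ T u n => Bg m lg σ T u n →
  ∀ t (p : S2), (t, p.1) ∈ Ev m σ u → gg m lg σ T u n t p = 0 ∧
    (∀ s, t < s → gg m lg σ T u n s p < 0) ∧ (∀ s, s < t → 0 < gg m lg σ T u n s p) ∧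
    m.ar σ p ≠ 0 ∧ (0 < m.ar σ p → (∀ᶠ q in 𝓝[≠] p, 0 < gg m lg σ T u n t q) ∨
      ∀ᶠ q in 𝓝[≠] p, gg m lg σ T u n t q < 0) ∧
    (m.ar σ p < 0 → ∃ φ : W → S2, Ch φ p ∧ Sa fun z => gg m lg σ T u n t (φ z))

/-- No positive local minimum of the distance. -/
def SNm : Prop := OnX fun m lg σ T u n => Bg m lg σ T u n → ∀ p, ds m lg σ T u n p < T →
  IsLocalMin (ds m lg σ T u n) p → ds m lg σ T u n p = 0

/-- The points where the geodesic pierces the front at time `T` are joined. -/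
def SPc : Prop := D3MO.STz → D3MO.SSph → OnX fun m lg σ T u n => Bg m lg σ T u n → ∀ p q,
  ds m lg σ T u n p = 0 → ds m lg σ T u n q = 0 → JoinedIn {p | ds m lg σ T u n p < T} p q

/-- A sublevel set without positive local minima. -/
def SCon : Prop := ∀ (P : Type) [MetricSpace P] [CompactSpace P] [LocallyPathConnectedSpace P]
  (F : P → ℝ) (T : ℝ), Continuous F → (∀ p, F p < T → IsLocalMin F p → F p = 0) →
    (∀ p q, F p = 0 → F q = 0 → JoinedIn {p | F p < T} p q) →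
      ∀ p q, F p < T → F q < T → JoinedIn {p | F p < T} p q

def SFin : Prop := OnX fun m _ σ _ u _ => (Ev m σ u).Finite

/-- The assembly. -/
def OfAsm : Prop := D3MO.SMorse → D3MO.SDef → D3MO.STz → D3MO.SSph → SBs → SFt → SFr → SGn →
  SHs → SBg → SRg → SB1 → SEv → SNm → SPc → SCon → SFin → SCNT

end

end Pool.Agent.MP_3ee8cb_gt.D3CT
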